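import Mathlib

/-!
# The arithmetic part: no `β` in `(1, 2)` has all `(1 + β) ^ r c` and `2 c` of the form `β ^ l · odd`
-/

set_option autoImplicit false

namespace Pool.Agent.U145.BC

open Polynomial

/-- A positive real number `β` with `β ^ n` and `(1 + β) ^ n` rational is rational. -/
lemma rational_of_pows {β : ℝ} (hβ : 0 < β) {n : ℕ} (hn : 0 < n) {q r : ℚ}
    (hq : β ^ n = (q : ℝ)) (hr : (1 + β) ^ n = (r : ℝ)) : ∃ a : ℚ, β = (a : ℝ) := by
  have hint : IsIntegral ℚ β := by
    refine ⟨X ^ n - C q, monic_X_pow_sub_C q hn.ne', ?_⟩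
    rw [← aeval_def, map_sub, map_pow, aeval_X, aeval_C, hq]
    simp
  have hd1 : minpoly ℚ β ∣ X ^ n - C q := by
    apply minpoly.dvd
    rw [map_sub, map_pow, aeval_X, aeval_C, hq]
    simp
  have hd2 : minpoly ℚ β ∣ (1 + X) ^ n - C r := by
    apply minpoly.dvd
    rw [map_sub, map_pow, map_add, aeval_X, aeval_C, map_one, hr]
    simp
  have hroot : ∀ z ∈ (minpoly ℚ β).rootSet ℂ, z = (β : ℂ) := by
    intro z hz
    have hz' : aeval z (minpoly ℚ β) = 0 := (mem_rootSet.1 hz).2
    have h1 : z ^ n = (β : ℂ) ^ n := by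
      obtain ⟨p, hp⟩ := hd1
      have h := congrArg (aeval z) hp
      rw [map_mul, hz', zero_mul, map_sub, map_pow, aeval_X, aeval_C, sub_eq_zero] at h
      rw [h, ← Complex.ofReal_pow, hq]
      simp
    have h2 : (1 + z) ^ n = (1 + (β : ℂ)) ^ n := by
      obtain ⟨p, hp⟩ := hd2
      have h := congrArg (aeval z) hp
      rw [map_mul, hz', zero_mul, map_sub, map_pow, map_add, aeval_X, aeval_C, map_one,
        sub_eq_zero] at h
      rw [h]
      have : (1 + (β : ℂ)) ^ n = (((1 + β) ^ n : ℝ) : ℂ) := by push_cast; rfl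
      rw [this, hr]
      simp
    have h3 : ‖z‖ = β := by
      have h := congrArg norm h1
      rw [norm_pow, norm_pow, Complex.norm_real, Real.norm_eq_abs, abs_of_pos hβ] at h
      exact (pow_left_inj₀ (norm_nonneg z) hβ.le hn.ne').1 h
    have h4 : ‖1 + z‖ = 1 + β := by
      have h := congrArg norm h2
      have e : (1 + (β : ℂ)) = ((1 + β : ℝ) : ℂ) := by push_cast; rfl
      rw [norm_pow, norm_pow, e, Complex.norm_real, Real.norm_eq_abs,
        abs_of_pos (by linarith)] at h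
      exact (pow_left_inj₀ (norm_nonneg _) (by linarith) hn.ne').1 h
    have h5 : z.re ^ 2 + z.im ^ 2 = β ^ 2 := by
      rw [← h3, ← Complex.normSq_eq_norm_sq, Complex.normSq_apply]
      ring
    have h6 : (1 + z.re) ^ 2 + z.im ^ 2 = (1 + β) ^ 2 := by
      rw [← h4, ← Complex.normSq_eq_norm_sq, Complex.normSq_apply]
      simp only [Complex.add_re, Complex.one_re, Complex.add_im, Complex.one_im]
      ring
    have h7 : z.re = β := by linarith
    have h8 : z.im = 0 := by
      rw [h7] at h5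
      have : z.im ^ 2 = 0 := by linarith
      exact pow_eq_zero_iff (two_ne_zero) |>.1 this
    exact Complex.ext (by simpa using h7) (by simpa using h8)
  have hsep : (minpoly ℚ β).Separable := (minpoly.irreducible hint).separable
  have hcard := card_rootSet_eq_natDegree (K := ℂ) hsep (IsAlgClosed.splits _)
  have hle : Fintype.card ((minpoly ℚ β).rootSet ℂ) ≤ 1 := by
    rw [Fintype.card_le_one_iff_subsingleton]
    exact ⟨fun a b => Subtype.ext ((hroot a a.2).trans (hroot b b.2).symm)⟩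
  have hdeg : (minpoly ℚ β).natDegree = 1 := by
    have h1 := minpoly.natDegree_pos hint
    omega
  obtain ⟨a, ha⟩ := minpoly.mem_range_of_degree_eq_one ℚ β (by
    rw [degree_eq_natDegree (minpoly.ne_zero hint), hdeg]
    rfl)
  exact ⟨a, by rw [← ha]; simp⟩

/-- A rational number all of whose powers have a common denominator is an integer. -/
lemma int_of_pows {a : ℚ} {c : ℤ} (hc : c ≠ 0) (h : ∀ r : ℕ, ∃ o : ℤ, a ^ r * c = o) :
    ∃ m : ℤ, a = m := by
  have hd : ∀ r : ℕ, (a.den : ℤ) ^ r ∣ c := by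
    intro r
    obtain ⟨o, ho⟩ := h r
    have h1 : (a.num : ℚ) ^ r * c = o * (a.den : ℚ) ^ r := by
      have h2 : a * a.den = a.num := Rat.mul_den_eq_num a
      rw [← h2, mul_pow, ← ho]
      ring
    have h3 : a.num ^ r * c = o * (a.den : ℤ) ^ r := by exact_mod_cast h1
    have h4 : (a.den : ℤ) ^ r ∣ a.num ^ r * c := ⟨o, by rw [h3]; ring⟩
    refine IsCoprime.dvd_of_dvd_mul_left ?_ h4
    refine IsCoprime.pow ?_
    rw [Int.isCoprime_iff_gcd_eq_one, Int.gcd_comm]
    exact a.reduced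
  have h1 : a.den = 1 := by
    by_contra hne
    have h2 : 2 ≤ a.den := by
      have := a.den_pos
      omega
    obtain ⟨r, hr⟩ := pow_unbounded_of_one_lt c.natAbs (by omega : 1 < a.den)
    have h3 := Int.natAbs_dvd_natAbs.2 (hd r)
    rw [Int.natAbs_pow, Int.natAbs_natCast] at h3
    exact absurd (Nat.le_of_dvd (Int.natAbs_pos.2 hc) h3) (by omega)
  exact ⟨a.num, (Rat.den_eq_one_iff a).1 h1 |>.symm⟩

lemma padic_odd {o : ℤ} (ho : Odd o) : padicValRat 2 (o : ℚ) = 0 := by
  rw [padicValRat.of_int, Nat.cast_eq_zero]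
  apply padicValInt.eq_zero_of_not_dvd
  intro h
  have h' : (2 : ℤ) ∣ o := by exact_mod_cast h
  exact (Int.not_even_iff_odd.2 ho) (even_iff_two_dvd.2 h')

/-- **The arithmetic lemma.** -/
theorem arith {β : ℝ} (h1 : 1 < β) (h2 : β < 2) {c : ℤ} (hc : Odd c)
    (hL : ∃ (L : ℤ) (o : ℤ), Odd o ∧ 2 * (c : ℝ) = β ^ L * o)
    (hr : ∀ r : ℕ, ∃ (l : ℤ) (o : ℤ), Odd o ∧ (1 + β) ^ r * (c : ℝ) = β ^ l * o) : False := by
  have hβ : 0 < β := by linarith
  have hc0 : c ≠ 0 := by rintro rfl; simp at hc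
  have hcR : (c : ℝ) ≠ 0 := by exact_mod_cast hc0
  obtain ⟨L, o, ho, hLo⟩ := hL
  have ho0 : o ≠ 0 := by rintro rfl; simp at ho
  have hoR : (o : ℝ) ≠ 0 := by exact_mod_cast ho0
  -- `L` is not zero
  have hL0 : L ≠ 0 := by
    rintro rfl
    rw [zpow_zero, one_mul] at hLo
    have : 2 * c = o := by exact_mod_cast hLo
    rw [← this] at ho
    exact (Int.not_even_iff_odd.2 ho) ⟨c, by ring⟩
  have hn : 0 < L.natAbs := Int.natAbs_pos.2 hL0
  -- `β` is rational
  have hβL : β ^ L = ((2 * c / o : ℚ) : ℝ) := by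
    push_cast
    rw [hLo]
    field_simp
  have hq : ∃ q : ℚ, β ^ L.natAbs = (q : ℝ) := by
    rcases Int.natAbs_eq L with h | h
    · refine ⟨2 * c / o, ?_⟩
      rw [← hβL]
      conv_rhs => rw [h]
      rw [zpow_natCast]
    · refine ⟨(2 * c / o : ℚ)⁻¹, ?_⟩
      rw [Rat.cast_inv, ← hβL]
      conv_rhs => rw [h]
      rw [zpow_neg, inv_inv, zpow_natCast]
  obtain ⟨q, hq⟩ := hq
  have hrr : ∃ r : ℚ, (1 + β) ^ L.natAbs = (r : ℝ) := by
    obtain ⟨l, o1, ho1, h⟩ := hr 1
    rw [pow_one] at h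
    have e : 1 + β = β ^ l * (o1 / c) := by
      field_simp
      linarith
    refine ⟨q ^ l * ((o1 : ℚ) / c) ^ L.natAbs, ?_⟩
    rw [e, mul_pow]
    push_cast
    rw [← hq]
    congr 1
    rw [← zpow_natCast, ← zpow_natCast, ← zpow_mul, ← zpow_mul, mul_comm]
  obtain ⟨r, hrr⟩ := hrr
  obtain ⟨a, ha⟩ := rational_of_pows hβ hn hq hrr
  have ha1 : 1 < a := by
    rw [ha] at h1
    exact_mod_cast h1
  have ha2 : a < 2 := by
    rw [ha] at h2
    exact_mod_cast h2
  have ha0 : a ≠ 0 := by positivity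
  have hcQ : (c : ℚ) ≠ 0 := by exact_mod_cast hc0
  -- the valuation of `a`
  have hfac : Fact (Nat.Prime 2) := ⟨Nat.prime_two⟩
  have hLo' : 2 * (c : ℚ) = a ^ L * o := by
    rw [ha] at hLo
    exact_mod_cast hLo
  have hr' : ∀ r : ℕ, ∃ (l : ℤ) (o : ℤ), Odd o ∧ (1 + a) ^ r * (c : ℚ) = a ^ l * o := by
    intro r
    obtain ⟨l, o, ho, h⟩ := hr r
    refine ⟨l, o, ho, ?_⟩
    rw [ha] at h
    exact_mod_cast h
  have hv : 1 = L * padicValRat 2 a := by
    have h := congrArg (padicValRat 2) hLo'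
    rw [padicValRat.mul two_ne_zero hcQ, padicValRat.mul (zpow_ne_zero _ ha0)
      (by exact_mod_cast ho0), padic_odd hc, padic_odd ho, padicValRat.zpow] at h
    have h3 : padicValRat 2 (2 : ℚ) = 1 := by
      have := padicValRat.self (p := 2) (by norm_num)
      exact_mod_cast this
    rw [h3] at h
    simpa using h
  have ha1' : (1 : ℚ) + a ≠ 0 := by positivity
  have hv1 : padicValRat 2 (1 : ℚ) = 0 := by simp
  have hpow : ∀ r : ℕ, ∃ (l : ℤ) (o : ℤ), Odd o ∧ (1 + a) ^ r * (c : ℚ) = a ^ l * o ∧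
      (r : ℤ) * padicValRat 2 (1 + a) = l * padicValRat 2 a := by
    intro r
    obtain ⟨l, o, ho, h⟩ := hr' r
    refine ⟨l, o, ho, h, ?_⟩
    have ho0 : o ≠ 0 := by rintro rfl; simp at ho
    have h3 := congrArg (padicValRat 2) h
    rw [padicValRat.mul (pow_ne_zero _ ha1') hcQ, padicValRat.mul (zpow_ne_zero _ ha0)
      (by exact_mod_cast ho0), padic_odd hc, padic_odd ho, padicValRat.zpow,
      padicValRat.pow] at h3
    simpa using h3
  rcases Int.eq_one_or_neg_one_of_mul_eq_one' hv.symm with ⟨-, h⟩ | ⟨-, h⟩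
  · -- valuation one
    have h3 : padicValRat 2 (1 + a) = 0 := by
      have := padicValRat.add_eq_of_lt (p := 2) (q := 1) (r := a) ha1' one_ne_zero ha0 (by
        rw [hv1, h]
        norm_num)
      rw [this, hv1]
    obtain ⟨m, hm⟩ := int_of_pows (a := 1 + a) hc0 fun r => by
      obtain ⟨l, o, -, h4, h5⟩ := hpow r
      rw [h3, h, mul_zero, mul_one] at h5
      exact ⟨o, by rw [h4, ← h5, zpow_zero, one_mul]⟩
    have h6 : (2 : ℚ) < m := by linarith
    have h7 : (m : ℚ) < 3 := by linarith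
    have h8 : (2 : ℤ) < m := by exact_mod_cast h6
    have h9 : m < (3 : ℤ) := by exact_mod_cast h7
    omega
  · -- valuation minus one
    have h3 : padicValRat 2 (1 + a) = -1 := by
      have := padicValRat.add_eq_of_lt (p := 2) (q := a) (r := 1) (by rwa [add_comm]) ha0
        one_ne_zero (by
          rw [hv1, h]
          norm_num)
      rw [add_comm, this, h]
    obtain ⟨m, hm⟩ := int_of_pows (a := (1 + a) / a) hc0 fun r => by
      obtain ⟨l, o, -, h4, h5⟩ := hpow r
      rw [h3, h] at h5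
      have h6 : l = r := by linarith
      refine ⟨o, ?_⟩
      rw [div_pow, div_mul_eq_mul_div, h4, h6, zpow_natCast]
      field_simp
    have h5 : (1 + a) / a = 1 + 1 / a := by field_simp; ring
    have h6 : (1 : ℚ) < m := by
      rw [← hm, h5]
      have : 0 < 1 / a := by positivity
      linarith
    have h7 : (m : ℚ) < 2 := by
      rw [← hm, h5]
      have : 1 / a < 1 := by
        rw [div_lt_one (by linarith)]
        exact ha1
      linarith
    have h8 : (1 : ℤ) < m := by exact_mod_cast h6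
    have h9 : m < (2 : ℤ) := by exact_mod_cast h7
    omega

end Pool.Agent.U145.BC
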