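import Pool.Agent.U145.BC.Ker
import Pool.Agent.U145.BC.Arith

/-!
# The Fourier transform of the Bernoulli convolution
-/

set_option autoImplicit false

open MeasureTheory Filter Topology Set Metric
open scoped ENNReal ContDiff FourierTransform

namespace Pool.Agent.U145.BC

open Pool.Agent.Results.MP_ddcbd8_an.SingularDensities (bernoulliConv)

/-- The character `z ↦ e^{- 2 π i ξ z}`. -/
noncomputable def ch (ξ z : ℝ) : ℂ := Complex.exp (-(2 * Real.pi * ξ * z : ℝ) * Complex.I)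

lemma norm_ch (ξ z : ℝ) : ‖ch ξ z‖ = 1 := by
  unfold ch
  rw [← Complex.ofReal_neg, Complex.norm_exp_ofReal_mul_I]

lemma continuous_ch (ξ : ℝ) : Continuous (ch ξ) := by
  unfold ch
  fun_prop

lemma ch_add (ξ z w : ℝ) : ch ξ (z + w) = ch ξ z * ch ξ w := by
  unfold ch
  rw [← Complex.exp_add]
  congr 1
  push_cast
  ring

lemma ch_mul (ξ c z : ℝ) : ch (ξ * c) z = ch ξ (c * z) := by
  unfold ch
  rw [show 2 * Real.pi * (ξ * c) * z = 2 * Real.pi * ξ * (c * z) by ring]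

/-- The Fourier transform of the Bernoulli convolution. -/
noncomputable def nuh (β ξ : ℝ) : ℂ := ∫ z, ch ξ z ∂(bernoulliConv β)

variable {β : ℝ}

lemma nuh_zero [Fact (1 < β)] : nuh β 0 = 1 := by
  simp [nuh, ch]

lemma nuh_mul (hβ : 1 < β) [Fact (1 < β)] (ξ : ℝ) :
    nuh β (β * ξ) = (1 + ch ξ 1) / 2 * nuh β ξ := by
  have hβ0 : β ≠ 0 := by positivity
  unfold nuh
  rw [self_integral hβ (continuous_ch _) (C := 1) (fun t => (norm_ch _ _).le)]
  have e0 : ∀ z, ch (β * ξ) (z / β) = ch ξ z := by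
    intro z
    rw [mul_comm β ξ, ch_mul]
    congr 1
    field_simp
  simp only [e0, ch_add]
  rw [integral_const_mul, Complex.real_smul]
  push_cast
  ring

lemma amp_succ (j : ℕ) (ζ : ℝ) : amp β (j + 1) ζ = (1 + ch ζ 1) / 2 * amp β j (ζ * β) := by
  unfold ch
  rw [mul_one]
  rfl

lemma nuh_pow (hβ : 1 < β) [Fact (1 < β)] (j : ℕ) (ξ : ℝ) :
    nuh β (β ^ j * ξ) = amp β j ξ * nuh β ξ := by
  induction j generalizing ξ with
  | zero => simp [amp]
  | succ j ih =>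
    rw [pow_succ, mul_assoc, ih, nuh_mul hβ, amp_succ, mul_comm β ξ]
    ring

lemma norm_half (ζ : ℝ) : ‖(1 + ch ζ 1) / 2‖ ^ 2 = 1 - Real.sin (Real.pi * ζ) ^ 2 := by
  unfold ch
  rw [mul_one, ← Complex.ofReal_neg, ← Complex.normSq_eq_norm_sq]
  have h1 : (1 + Complex.exp (((-(2 * Real.pi * ζ) : ℝ) : ℂ) * Complex.I)) / 2 =
      (((1 + Real.cos (2 * Real.pi * ζ)) / 2 : ℝ) : ℂ) +
        ((-Real.sin (2 * Real.pi * ζ) / 2 : ℝ) : ℂ) * Complex.I := by
    rw [Complex.exp_mul_I, ← Complex.ofReal_cos, ← Complex.ofReal_sin, Real.cos_neg, Real.sin_neg]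
    push_cast
    ring
  rw [h1, Complex.normSq_add_mul_I]
  have h2 := Real.cos_sq_add_sin_sq (2 * Real.pi * ζ)
  have h3 : Real.cos (2 * Real.pi * ζ) = 1 - 2 * Real.sin (Real.pi * ζ) ^ 2 := by
    rw [show 2 * Real.pi * ζ = 2 * (Real.pi * ζ) by ring, Real.cos_two_mul]
    have := Real.cos_sq_add_sin_sq (Real.pi * ζ)
    linarith
  have h4 : ((1 + Real.cos (2 * Real.pi * ζ)) / 2) ^ 2 + (-Real.sin (2 * Real.pi * ζ) / 2) ^ 2 =
      (1 + Real.cos (2 * Real.pi * ζ)) / 2 := by nlinarith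
  rw [h4, h3]
  ring

lemma norm_amp (j : ℕ) (ζ : ℝ) :
    ‖amp β j ζ‖ ^ 2 = ∏ i ∈ Finset.range j, (1 - Real.sin (Real.pi * (ζ * β ^ i)) ^ 2) := by
  induction j generalizing ζ with
  | zero => simp [amp]
  | succ j ih =>
    rw [amp_succ, norm_mul, mul_pow, norm_half, ih, Finset.prod_range_succ', pow_zero, mul_one,
      mul_comm]
    congr 1
    refine Finset.prod_congr rfl fun i _ => ?_
    rw [show ζ * β * β ^ i = ζ * β ^ (i + 1) by ring]

lemma half_eq_zero {ζ : ℝ} (h : (1 + ch ζ 1) / 2 = 0) : ∃ m : ℤ, ζ = m + 1 / 2 := by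
  have h1 := norm_half ζ
  rw [h, norm_zero] at h1
  have h2 : Real.cos (Real.pi * ζ) = 0 := by
    have := Real.cos_sq_add_sin_sq (Real.pi * ζ)
    have h3 : Real.cos (Real.pi * ζ) ^ 2 = 0 := by
      rw [zero_pow two_ne_zero] at h1
      linarith
    exact pow_eq_zero_iff two_ne_zero |>.1 h3
  obtain ⟨k, hk⟩ := Real.cos_eq_zero_iff.1 h2
  refine ⟨k, ?_⟩
  have hpi := Real.pi_pos
  have h3 : Real.pi * ζ = Real.pi * (k + 1 / 2) := by
    rw [hk]
    ring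
  exact mul_left_cancel₀ hpi.ne' h3

lemma amp_eq_zero {j : ℕ} {ζ : ℝ} (h : amp β j ζ = 0) :
    ∃ i < j, ∃ m : ℤ, ζ * β ^ i = m + 1 / 2 := by
  induction j generalizing ζ with
  | zero => simp [amp] at h
  | succ j ih =>
    rw [amp_succ, mul_eq_zero] at h
    rcases h with h | h
    · obtain ⟨m, hm⟩ := half_eq_zero h
      exact ⟨0, Nat.succ_pos j, m, by simpa using hm⟩
    · obtain ⟨i, hi, m, hm⟩ := ih h
      exact ⟨i + 1, by omega, m, by rw [← hm, pow_succ]; ring⟩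

section ac

variable (hβ : 1 < β) (hν : bernoulliConv β ≪ volume)

include hν in
lemma nuh_eq_fourier [Fact (1 < β)] :
    nuh β = 𝓕 (fun z => ((dens (bernoulliConv β) z : ℝ) : ℂ)) := by
  funext ξ
  rw [Real.fourier_real_eq_integral_exp_smul]
  unfold nuh
  rw [← integral_rnDeriv_smul hν]
  refine integral_congr_ae (Eventually.of_forall fun z => ?_)
  simp only [ch, smul_eq_mul, Complex.real_smul, dens]
  rw [mul_comm]
  congr 2
  push_cast
  ring

include hβ hν in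
lemma dens_ae_zero [Fact (1 < β)] : ∀ᵐ z ∂(volume : Measure ℝ),
    z ∉ Icc 0 (1 / (β - 1)) → dens (bernoulliConv β) z = 0 := by
  have h1 : bernoulliConv β (Icc 0 (1 / (β - 1)))ᶜ = 0 := ae_mem hβ
  rw [← Measure.setLIntegral_rnDeriv hν, lintegral_eq_zero_iff (Measure.measurable_rnDeriv _ _),
    EventuallyEq, ae_restrict_iff' measurableSet_Icc.compl] at h1
  filter_upwards [h1] with z hz hz'
  unfold dens
  rw [hz hz']
  simp

include hβ hν in
lemma contDiff_nuh [Fact (1 < β)] : ContDiff ℝ ∞ (nuh β) := by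
  rw [nuh_eq_fourier hν]
  refine Real.contDiff_fourier (N := ⊤) fun n _ => ?_
  have hint := integrable_dens (bernoulliConv β)
  have hB : 0 ≤ 1 / (β - 1) := by
    have : 0 < β - 1 := by linarith
    positivity
  refine (hint.const_mul ((1 / (β - 1)) ^ n)).mono' ?_ ?_
  · refine AEStronglyMeasurable.mul (by fun_prop) ?_
    exact (Complex.measurable_ofReal.comp (measurable_dens _)).aestronglyMeasurable.norm
  · filter_upwards [dens_ae_zero hβ hν] with z hz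
    by_cases h : z ∈ Icc 0 (1 / (β - 1))
    · rw [Complex.norm_real, norm_mul, norm_pow, norm_norm, norm_norm]
      have h1 : ‖z‖ ≤ 1 / (β - 1) := by
        rw [Real.norm_eq_abs, abs_of_nonneg h.1]
        exact h.2
      have h2 := dens_nonneg (bernoulliConv β) z
      rw [Real.norm_eq_abs (dens _ z), abs_of_nonneg h2]
      exact mul_le_mul_of_nonneg_right (pow_le_pow_left₀ (norm_nonneg _) h1 n) h2
    · rw [hz h]
      simp

include hν in
lemma nuh_tendsto [Fact (1 < β)] : Tendsto (nuh β) (cocompact ℝ) (𝓝 0) := by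
  rw [nuh_eq_fourier hν]
  exact Real.zero_at_infty_fourier _

/-- The square-summability of the sines. -/
def SS (β ζ : ℝ) : Prop := Summable fun i : ℕ => Real.sin (Real.pi * (ζ * β ^ i)) ^ 2

lemma SS.add {a b : ℝ} (ha : SS β a) (hb : SS β b) : SS β (a + b) := by
  refine Summable.of_nonneg_of_le (fun i => sq_nonneg _) (fun i => ?_)
    ((ha.mul_left 2).add (hb.mul_left 2))
  have h1 : Real.pi * ((a + b) * β ^ i) = Real.pi * (a * β ^ i) + Real.pi * (b * β ^ i) := by ring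
  rw [h1, Real.sin_add]
  set p := Real.sin (Real.pi * (a * β ^ i))
  set q := Real.sin (Real.pi * (b * β ^ i))
  set p' := Real.cos (Real.pi * (a * β ^ i)) with hp'
  set q' := Real.cos (Real.pi * (b * β ^ i)) with hq'
  have h2 : p' ^ 2 ≤ 1 := by
    rw [hp']
    exact Real.cos_sq_le_one _
  have h3 : q' ^ 2 ≤ 1 := by
    rw [hq']
    exact Real.cos_sq_le_one _
  have h4 : (p * q' + p' * q) ^ 2 ≤ 2 * (p ^ 2 * q' ^ 2) + 2 * (p' ^ 2 * q ^ 2) := by
    nlinarith [sq_nonneg (p * q' - p' * q)]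
  have h5 : p ^ 2 * q' ^ 2 ≤ p ^ 2 := mul_le_of_le_one_right (sq_nonneg p) h3
  have h6 : p' ^ 2 * q ^ 2 ≤ q ^ 2 := mul_le_of_le_one_left (sq_nonneg q) h2
  linarith

lemma SS.mul_base {a : ℝ} (ha : SS β a) : SS β (a * β) := by
  have h := (summable_nat_add_iff 1).2 ha
  refine h.congr fun i => ?_
  rw [show a * β ^ (i + 1) = a * β * β ^ i by ring]

lemma SS.pow {a : ℝ} (ha : SS β a) (r : ℕ) : SS β ((1 + β) ^ r * a) := by
  induction r with
  | zero => simpa using ha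
  | succ r ih =>
    have h := ih.add ih.mul_base
    have e : (1 + β) ^ r * a + (1 + β) ^ r * a * β = (1 + β) ^ (r + 1) * a := by
      rw [pow_succ]
      ring
    rwa [e] at h

lemma sin_sq_le (t : ℝ) : Real.sin t ^ 2 ≤ 1 := Real.sin_sq_le_one t

lemma amp_tendsto_of_not {ζ : ℝ} (h : ¬ SS β ζ) :
    Tendsto (fun j => amp β j ζ) atTop (𝓝 0) := by
  unfold SS at h
  rw [not_summable_iff_tendsto_nat_atTop_of_nonneg (fun i => sq_nonneg _)] at h
  have h1 : Tendsto (fun j => ‖amp β j ζ‖ ^ 2) atTop (𝓝 0) := by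
    have h2 : Tendsto (fun j => Real.exp (-∑ i ∈ Finset.range j,
        Real.sin (Real.pi * (ζ * β ^ i)) ^ 2)) atTop (𝓝 0) :=
      Real.tendsto_exp_atBot.comp (tendsto_neg_atTop_atBot.comp h)
    refine squeeze_zero (fun j => sq_nonneg _) (fun j => ?_) h2
    rw [norm_amp, ← Finset.sum_neg_distrib, Real.exp_sum]
    refine Finset.prod_le_prod (fun i _ => ?_) (fun i _ => ?_)
    · linarith [sin_sq_le (Real.pi * (ζ * β ^ i))]
    · have := Real.add_one_le_exp (-Real.sin (Real.pi * (ζ * β ^ i)) ^ 2)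
      linarith
  have h3 := h1.sqrt
  rw [Real.sqrt_zero] at h3
  rw [tendsto_zero_iff_norm_tendsto_zero]
  refine h3.congr fun j => ?_
  exact Real.sqrt_sq (norm_nonneg _)

lemma one_sub_sum_le {s : ℕ → ℝ} (h0 : ∀ i, 0 ≤ s i) (h1 : ∀ i, s i ≤ 1) (j : ℕ) :
    1 - ∑ i ∈ Finset.range j, s i ≤ ∏ i ∈ Finset.range j, (1 - s i) := by
  induction j with
  | zero => simp
  | succ j ih =>
    rw [Finset.sum_range_succ, Finset.prod_range_succ]
    have h2 : ∏ i ∈ Finset.range j, (1 - s i) ≤ 1 :=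
      Finset.prod_le_one (fun i _ => by linarith [h1 i]) (fun i _ => by linarith [h0 i])
    have h3 : 0 ≤ ∏ i ∈ Finset.range j, (1 - s i) :=
      Finset.prod_nonneg fun i _ => by linarith [h1 i]
    nlinarith [h0 j, h1 j, mul_le_mul_of_nonneg_right h2 (h0 j)]

lemma SS.lower {ζ : ℝ} (h : SS β ζ) : ∃ i₀ : ℕ, ∀ j, 1 / 2 ≤ ‖amp β j (ζ * β ^ i₀)‖ ^ 2 := by
  have h1 := h
  unfold SS at h1
  have h2 := tendsto_sum_nat_add fun i => Real.sin (Real.pi * (ζ * β ^ i)) ^ 2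
  obtain ⟨i₀, hi⟩ := (h2.eventually (gt_mem_nhds (show (0 : ℝ) < 1 / 2 by norm_num))).exists
  refine ⟨i₀, fun j => ?_⟩
  rw [norm_amp]
  have hs : Summable fun k => Real.sin (Real.pi * (ζ * β ^ (k + i₀))) ^ 2 :=
    (summable_nat_add_iff i₀).2 h1
  have h3 : ∑ i ∈ Finset.range j, Real.sin (Real.pi * (ζ * β ^ (i + i₀))) ^ 2 ≤
      ∑' k, Real.sin (Real.pi * (ζ * β ^ (k + i₀))) ^ 2 :=
    hs.sum_le_tsum _ fun i _ => sq_nonneg _
  have h4 := one_sub_sum_le (s := fun i => Real.sin (Real.pi * (ζ * β ^ (i + i₀))) ^ 2)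
    (fun i => sq_nonneg _) (fun i => sin_sq_le _) j
  have h5 : ∏ i ∈ Finset.range j, (1 - Real.sin (Real.pi * (ζ * β ^ i₀ * β ^ i)) ^ 2) =
      ∏ i ∈ Finset.range j, (1 - Real.sin (Real.pi * (ζ * β ^ (i + i₀))) ^ 2) := by
    refine Finset.prod_congr rfl fun i _ => ?_
    rw [show ζ * β ^ i₀ * β ^ i = ζ * β ^ (i + i₀) by rw [pow_add]; ring]
  rw [h5]
  linarith

lemma tendsto_pow_mul (hβ : 1 < β) {ξ : ℝ} (hξ : ξ ≠ 0) :
    Tendsto (fun j : ℕ => β ^ j * ξ) atTop (cocompact ℝ) := by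
  rw [← Metric.cobounded_eq_cocompact, ← tendsto_norm_atTop_iff_cobounded]
  have h1 : Tendsto (fun j : ℕ => β ^ j * |ξ|) atTop atTop :=
    (tendsto_pow_atTop_atTop_of_one_lt hβ).atTop_mul_const (abs_pos.2 hξ)
  refine h1.congr fun j => ?_
  rw [Real.norm_eq_abs, abs_mul, abs_of_pos (pow_pos (by linarith : (0 : ℝ) < β) j)]

include hβ hν in
/-- Zeros of the Fourier transform on the orbits of the square-summable frequencies. -/
lemma SS.zero [Fact (1 < β)] {ζ : ℝ} (h : SS β ζ) (h0 : ζ ≠ 0) :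
    ∃ i : ℕ, nuh β (ζ * β ^ i) = 0 := by
  obtain ⟨i₀, hi⟩ := h.lower
  refine ⟨i₀, ?_⟩
  by_contra hne
  have hβ0 : β ≠ 0 := by positivity
  have h1 : ζ * β ^ i₀ ≠ 0 := mul_ne_zero h0 (pow_ne_zero _ hβ0)
  have h2 := (nuh_tendsto hν).comp (tendsto_pow_mul hβ h1)
  have h3 : Tendsto (fun j : ℕ => ‖nuh β (β ^ j * (ζ * β ^ i₀))‖ ^ 2) atTop (𝓝 0) := by
    have := (h2.norm).pow 2
    simpa using this
  have h4 : ∀ j : ℕ, 1 / 2 * ‖nuh β (ζ * β ^ i₀)‖ ^ 2 ≤ ‖nuh β (β ^ j * (ζ * β ^ i₀))‖ ^ 2 := by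
    intro j
    rw [nuh_pow hβ, norm_mul, mul_pow]
    exact mul_le_mul_of_nonneg_right (hi j) (sq_nonneg _)
  have h5 := ge_of_tendsto' h3 h4
  have h6 : 0 < ‖nuh β (ζ * β ^ i₀)‖ ^ 2 := by positivity
  linarith

include hβ hν in
lemma nuh_ne_zero_near [Fact (1 < β)] : ∃ δ > 0, ∀ ξ, |ξ| < δ → nuh β ξ ≠ 0 := by
  have h1 : Tendsto (nuh β) (𝓝 0) (𝓝 1) := by
    have := (contDiff_nuh hβ hν).continuous.tendsto 0
    rwa [nuh_zero] at this
  have h2 := h1.eventually_ne one_ne_zero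
  rw [Metric.eventually_nhds_iff] at h2
  obtain ⟨δ, hδ, h⟩ := h2
  exact ⟨δ, hδ, fun ξ hξ => h (by rwa [Real.dist_eq, sub_zero])⟩

include hβ hν in
/-- The zeros of the Fourier transform in a bounded interval. -/
lemma zeros_form [Fact (1 < β)] (R : ℝ) : ∃ J : ℕ, ∀ ξ, |ξ| ≤ R → nuh β ξ = 0 →
    ∃ i < J, ∃ m : ℤ, ξ / β ^ J * β ^ i = m + 1 / 2 := by
  have hβ0 : 0 < β := by linarith
  obtain ⟨δ, hδ, h⟩ := nuh_ne_zero_near hβ hν
  obtain ⟨J, hJ⟩ := pow_unbounded_of_one_lt (|R| / δ) hβ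
  refine ⟨J, fun ξ hξ h0 => ?_⟩
  have h1 : |ξ / β ^ J| < δ := by
    rw [abs_div, abs_of_pos (pow_pos hβ0 J), div_lt_iff₀ (pow_pos hβ0 J)]
    rw [div_lt_iff₀ hδ] at hJ
    have := le_abs_self R
    linarith
  have h2 := nuh_pow hβ J (ξ / β ^ J)
  have h3 : β ^ J * (ξ / β ^ J) = ξ := by field_simp
  rw [h3, h0] at h2
  rcases mul_eq_zero.1 h2.symm with h4 | h4
  · exact amp_eq_zero h4
  · exact absurd h4 (h _ h1)

include hβ hν in
lemma zeros_finite [Fact (1 < β)] (R : ℝ) : {ξ : ℝ | |ξ| ≤ R ∧ nuh β ξ = 0}.Finite := by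
  have hβ0 : 0 < β := by linarith
  obtain ⟨J, hJ⟩ := zeros_form hβ hν R
  obtain ⟨N, hN⟩ := exists_nat_gt (|R| + 1)
  refine Set.Finite.subset (s := ⋃ i ∈ Finset.range J, (fun m : ℤ => ((m : ℝ) + 1 / 2) *
    β ^ J / β ^ i) '' (Set.Icc (-(N * 1 : ℤ) - 1) N)) ?_ ?_
  · exact Set.Finite.biUnion (Finset.finite_toSet _) fun i _ => (Set.finite_Icc _ _).image _
  · rintro ξ ⟨h1, h2⟩
    obtain ⟨i, hi, m, hm⟩ := hJ ξ h1 h2
    simp only [mem_iUnion, mem_image, Finset.mem_range]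
    have hpi : 0 < β ^ i := pow_pos hβ0 i
    have hpJ : 0 < β ^ J := pow_pos hβ0 J
    refine ⟨i, hi, m, ?_, ?_⟩
    · have h3 : |((m : ℝ) + 1 / 2)| ≤ |R| := by
        rw [← hm, abs_mul, abs_div, abs_of_pos hpi, abs_of_pos hpJ]
        have h4 : β ^ i ≤ β ^ J := pow_le_pow_right₀ hβ.le hi.le
        rw [div_mul_eq_mul_div, div_le_iff₀ hpJ]
        have h5 := le_abs_self R
        have h6 := abs_nonneg ξ
        nlinarith [mul_le_mul_of_nonneg_left h4 h6, mul_le_mul_of_nonneg_right (h1.trans h5) hpJ.le]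
      have h4 := abs_le.1 h3
      constructor
      · have : (-(N : ℝ) - 1) ≤ m := by linarith [h4.1]
        exact_mod_cast (by push_cast; linarith : ((-(N * 1 : ℤ) - 1 : ℤ) : ℝ) ≤ m)
      · have : (m : ℝ) ≤ N := by linarith [h4.2]
        exact_mod_cast this
    · show ((m : ℝ) + 1 / 2) * β ^ J / β ^ i = ξ
      rw [← hm]
      field_simp

include hβ hν in
lemma SS.form [Fact (1 < β)] {ζ : ℝ} (h : SS β ζ) (h0 : ζ ≠ 0) :
    ∃ (l : ℤ) (o : ℤ), Odd o ∧ ζ = β ^ l * o / 2 := by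
  have hβ0 : β ≠ 0 := by positivity
  obtain ⟨k, hk⟩ := h.zero hβ hν h0
  obtain ⟨J, hJ⟩ := zeros_form hβ hν |ζ * β ^ k|
  obtain ⟨i, -, m, hm⟩ := hJ _ le_rfl hk
  refine ⟨J - k - i, 2 * m + 1, ⟨m, rfl⟩, ?_⟩
  rw [zpow_sub₀ hβ0, zpow_sub₀ hβ0, zpow_natCast, zpow_natCast, zpow_natCast]
  push_cast
  have : (2 * (m : ℝ) + 1) = 2 * (ζ * β ^ k / β ^ J * β ^ i) := by rw [hm]; ring
  rw [this]
  field_simp

include hβ hν in
/-- **The amplitudes tend to zero** if the Bernoulli convolution is absolutely continuous. -/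
theorem amp_tendsto [Fact (1 < β)] (hβ2 : β < 2) {ζ : ℝ} (h0 : ζ ≠ 0) :
    Tendsto (fun j => amp β j ζ) atTop (𝓝 0) := by
  by_cases h : SS β ζ
  · exfalso
    have hβ0 : β ≠ 0 := by positivity
    obtain ⟨l₀, c, hc, hz⟩ := h.form hβ hν h0
    have key : ∀ a : ℝ, a ≠ 0 → SS β (a * ζ) → ∃ (l : ℤ) (o : ℤ), Odd o ∧
        a * (c : ℝ) = β ^ l * o := by
      intro a ha hs
      obtain ⟨l, o, ho, h1⟩ := hs.form hβ hν (mul_ne_zero ha h0)
      refine ⟨l - l₀, o, ho, ?_⟩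
      rw [hz] at h1
      rw [zpow_sub₀ hβ0]
      have h2 : β ^ l₀ ≠ 0 := zpow_ne_zero _ hβ0
      field_simp
      linarith
    refine arith hβ hβ2 hc ?_ fun r => ?_
    · refine key 2 two_ne_zero ?_
      rw [two_mul]
      exact h.add h
    · exact key _ (by positivity) (h.pow r)
  · exact amp_tendsto_of_not h

end ac

end Pool.Agent.U145.BC
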