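import Pool.Agent.U145.BC.Inv

/-!
# Convergence for band-limited functions
-/

set_option autoImplicit false

open MeasureTheory Filter Topology Set Metric
open scoped ENNReal ContDiff FourierTransform SchwartzMap

namespace Pool.Agent.U145.BC

open Pool.Agent.Results.MP_ddcbd8_an.SingularDensities (bernoulliConv)

variable {β : ℝ}

/-- The Schwartz function with the compactly supported smooth Fourier transform `Φ`. -/
lemma exists_schwartz {Φ : ℝ → ℂ} (h1 : HasCompactSupport Φ) (h2 : ContDiff ℝ ∞ Φ) :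
    ∃ g : 𝓢(ℝ, ℂ), (∀ y, g y = inv Φ y) ∧ (∀ ξ, 𝓕 (fun y => inv Φ y) ξ = Φ ξ) := by
  refine ⟨𝓕⁻ (h1.toSchwartzMap h2), fun y => ?_, fun ξ => ?_⟩
  · rw [SchwartzMap.fourierInv_coe, inv_eq]
    rfl
  · have h3 : 𝓕 (𝓕⁻ (h1.toSchwartzMap h2)) = h1.toSchwartzMap h2 := FourierTransform.fourier_fourierInv_eq _
    have h4 : (𝓕 (𝓕⁻ (h1.toSchwartzMap h2))) ξ = h1.toSchwartzMap h2 ξ := by rw [h3]
    rw [SchwartzMap.fourier_coe] at h4
    have h5 : (fun y => inv Φ y) = ((𝓕⁻ (h1.toSchwartzMap h2) : 𝓢(ℝ, ℂ)) : ℝ → ℂ) := by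
      funext y
      rw [SchwartzMap.fourierInv_coe, inv_eq]
      rfl
    rw [h5, h4]
    rfl

lemma integral_inv {Φ : ℝ → ℂ} (h1 : HasCompactSupport Φ) (h2 : ContDiff ℝ ∞ Φ) :
    ∫ y, inv Φ y = Φ 0 := by
  obtain ⟨g, -, h⟩ := exists_schwartz h1 h2
  rw [← h 0, fourier_eq_ch]
  simp only [ch_zero', one_mul]

lemma inv_add {Φ X : ℝ → ℂ} (hΦ : Integrable Φ) (hX : Integrable X) (y : ℝ) :
    inv (fun ξ => Φ ξ + X ξ) y = inv Φ y + inv X y := by
  unfold inv
  have hc : ∀ {Z : ℝ → ℂ}, Integrable Z → Integrable fun ξ => ch ξ (-y) * Z ξ := by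
    intro Z hZ
    refine hZ.bdd_mul (c := 1) ?_ (Eventually.of_forall fun p => (norm_ch _ _).le)
    exact (continuous_ch2.comp (continuous_id.prodMk continuous_const)).aestronglyMeasurable
  rw [← integral_add (hc hΦ) (hc hX)]
  simp only [mul_add]

lemma integrable_cc {Φ : ℝ → ℂ} (h1 : HasCompactSupport Φ) (h2 : ContDiff ℝ ∞ Φ) :
    Integrable Φ := h2.continuous.integrable_of_hasCompactSupport h1

/-- The convergence statement for `Φ` at the point `x`. -/
def Conv (β x : ℝ) (Φ : ℝ → ℂ) : Prop :=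
  Tendsto (fun n => (op β)^[n] (inv Φ) x) atTop (𝓝 (dens (bernoulliConv β) x • Φ 0))

/-- **Step 1**: no zeros of the Fourier transform in the support. -/
lemma conv_base [Fact (1 < β)] (hβ : 1 < β) (hν : bernoulliConv β ≪ volume) {x : ℝ}
    (hx : Good (bernoulliConv β) x) {Φ : ℝ → ℂ} (h1 : HasCompactSupport Φ)
    (h2 : ContDiff ℝ ∞ Φ) (h0 : ∀ ξ ∈ tsupport Φ, nuh β ξ ≠ 0) : Conv β x Φ := by
  have hP : IsProbabilityMeasure (bernoulliConv β) := inferInstance
  set Ψ : ℝ → ℂ := fun ξ => Φ ξ / nuh β ξ with hΨ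
  have hs : HasCompactSupport Ψ := by
    refine h1.mono fun ξ hξ => ?_
    rw [Function.mem_support] at hξ ⊢
    intro h
    exact hξ (by simp [hΨ, h])
  have hsm : ContDiff ℝ ∞ Ψ := by
    rw [contDiff_iff_contDiffAt]
    intro ξ
    by_cases hξ : ξ ∈ tsupport Φ
    · have h3 := h2.contDiffAt.mul ((contDiff_nuh hβ hν).contDiffAt.inv (h0 ξ hξ))
      exact h3.congr_of_eventuallyEq (Eventually.of_forall fun η => div_eq_mul_inv _ _)
    · have h3 : Ψ =ᶠ[𝓝 ξ] fun _ => 0 := by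
        have h4 : (tsupport Φ)ᶜ ∈ 𝓝 ξ := (isClosed_tsupport Φ).isOpen_compl.mem_nhds hξ
        filter_upwards [h4] with η hη
        simp only [hΨ]
        rw [image_eq_zero_of_notMem_tsupport hη, zero_div]
      exact contDiffAt_const.congr_of_eventuallyEq h3
  have hmul : Φ = fun ξ => Ψ ξ * nuh β ξ := by
    funext ξ
    simp only [hΨ]
    by_cases hξ : ξ ∈ tsupport Φ
    · rw [div_mul_cancel₀ _ (h0 ξ hξ)]
    · rw [image_eq_zero_of_notMem_tsupport hξ]
      simp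
  obtain ⟨g, hg, -⟩ := exists_schwartz hs hsm
  obtain ⟨C, hC, hdec⟩ := schwartz_wt g
  have hcont : Continuous (inv Ψ) := by
    have : inv Ψ = g := (funext hg).symm
    rw [this]
    exact g.continuous
  have hdec' : ∀ t, ‖inv Ψ t‖ ≤ C * wt t := fun t => by rw [← hg]; exact hdec t
  have hbd : ∀ t, ‖inv Ψ t‖ ≤ C := fun t => (hdec' t).trans (by
    have := wt_le_one t
    nlinarith)
  have e1 : inv Φ = Kop (bernoulliConv β) 1 (inv Ψ) := by
    funext y
    conv_lhs => rw [hmul]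
    exact inv_nuh_mul (integrable_cc hs hsm) y
  have e2 : Φ 0 = ∫ t, inv Ψ t := by
    rw [integral_inv hs hsm]
    simp [hΨ, nuh_zero]
  unfold Conv
  rw [e1, e2]
  have h3 := (hx.tendsto (bernoulliConv β) hν hcont hdec').comp
    (tendsto_pow_atTop_atTop_of_one_lt hβ)
  refine h3.congr fun n => ?_
  rw [op_Kop hβ hcont hbd, one_mul]
  rfl

/-- A smooth cut-off function. -/
noncomputable def bump : ContDiffBump (0 : ℝ) := ⟨1 / 2, 1, by norm_num, by norm_num⟩

/-- The cut-off function with complex values. -/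
noncomputable def chi (η : ℝ) : ℂ := ((bump η : ℝ) : ℂ)

lemma chi_smooth : ContDiff ℝ ∞ chi := Complex.ofRealCLM.contDiff.comp bump.contDiff

lemma chi_supp : HasCompactSupport chi :=
  bump.hasCompactSupport.comp_left (g := fun r : ℝ => (r : ℂ)) Complex.ofReal_zero

lemma chi_one {η : ℝ} (h : |η| ≤ 1 / 2) : chi η = 1 := by
  unfold chi
  rw [bump.one_of_mem_closedBall (by rw [mem_closedBall, Real.dist_eq, sub_zero]; exact h)]
  simp

lemma chi_eq_zero {η : ℝ} (h : 1 ≤ |η|) : chi η = 0 := by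
  unfold chi
  rw [bump.zero_of_le_dist (by rw [Real.dist_eq, sub_zero]; exact h)]
  simp

/-- The cut-off function at `ζ` at the scale `δ`. -/
noncomputable def chiAt (ζ δ ξ : ℝ) : ℂ := chi ((ξ - ζ) / δ)

lemma chiAt_smooth (ζ δ : ℝ) : ContDiff ℝ ∞ (chiAt ζ δ) :=
  chi_smooth.comp ((contDiff_id.sub contDiff_const).div_const δ)

lemma chiAt_supp (ζ : ℝ) {δ : ℝ} (hδ : 0 < δ) : HasCompactSupport (chiAt ζ δ) := by
  refine HasCompactSupport.of_support_subset_isCompact (isCompact_closedBall ζ δ) fun ξ hξ => ?_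
  rw [Function.mem_support] at hξ
  by_contra h
  apply hξ
  apply chi_eq_zero
  rw [mem_closedBall, Real.dist_eq, not_le] at h
  rw [abs_div, abs_of_pos hδ, one_le_div hδ]
  exact h.le

lemma shift_bound {S s t : ℝ} (h0 : 0 ≤ s) (h1 : s ≤ S) :
    |s + t| * (1 + (s + t) ^ 2) ^ 2 ≤ 8 * (1 + S ^ 2) ^ 3 * (1 + t ^ 2) ^ 3 := by
  have h2 : 1 + (s + t) ^ 2 ≤ 2 * ((1 + S ^ 2) * (1 + t ^ 2)) := by
    have h3 : s ^ 2 ≤ S ^ 2 := pow_le_pow_left₀ h0 h1 2
    nlinarith [sq_nonneg (s - t), mul_nonneg (sq_nonneg S) (sq_nonneg t), sq_nonneg t, sq_nonneg S]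
  have h4 : |s + t| ≤ 1 + (s + t) ^ 2 := by
    nlinarith [sq_nonneg (|s + t| - 1), sq_abs (s + t), abs_nonneg (s + t)]
  calc |s + t| * (1 + (s + t) ^ 2) ^ 2 ≤ (1 + (s + t) ^ 2) * (1 + (s + t) ^ 2) ^ 2 :=
        mul_le_mul_of_nonneg_right h4 (by positivity)
    _ = (1 + (s + t) ^ 2) ^ 3 := by ring
    _ ≤ (2 * ((1 + S ^ 2) * (1 + t ^ 2))) ^ 3 := pow_le_pow_left₀ (by positivity) h2 3
    _ = 8 * (1 + S ^ 2) ^ 3 * (1 + t ^ 2) ^ 3 := by ring

lemma integrable_inv_sq : Integrable fun t : ℝ => ((1 + t ^ 2) ^ 1)⁻¹ := by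
  simpa using integrable_inv_one_add_sq

/-- **Step 2**: the estimate near one frequency. -/
lemma freq_bound [Fact (1 < β)] (hβ : 1 < β) {Φ : ℝ → ℂ} (h1 : HasCompactSupport Φ)
    (h2 : ContDiff ℝ ∞ Φ) (ζ : ℝ) :
    ∃ A : ℝ, 0 ≤ A ∧ ∀ j : ℕ, ∃ K : ℝ, 0 ≤ K ∧ ∀ δ : ℝ, 0 < δ → δ ≤ 1 → ∀ y,
      ‖(op β)^[j] (inv fun ξ => Φ ξ * chiAt ζ δ ξ) y‖ ≤
        (A * ‖amp β j ζ‖ + K * δ) * ((δ * β ^ j) * wt (δ * β ^ j * y)) := by
  have hβ0 : 0 < β := by linarith
  obtain ⟨g, hg, hgF⟩ := exists_schwartz h1 h2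
  obtain ⟨u, hu, -⟩ := exists_schwartz chi_supp chi_smooth
  obtain ⟨Cg, hCg, hdg⟩ := schwartz_decay g 4
  obtain ⟨Cu, hCu, hdu⟩ := schwartz_wt u
  obtain ⟨Ci, hCi, hdi⟩ := schwartz_incr u
  set G1 := ∫ t, ‖g t‖ with hG1
  have hG10 : 0 ≤ G1 := integral_nonneg fun t => norm_nonneg _
  refine ⟨G1 * Cu, by positivity, fun j => ?_⟩
  set S := top β j with hS
  have hS0 : 0 ≤ S := top_nonneg hβ0.le j
  set I1 := ∫ t : ℝ, ((1 + t ^ 2) ^ 1)⁻¹ with hI1
  have hI10 : 0 ≤ I1 := integral_nonneg fun t => by positivity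
  refine ⟨Cg * Ci * (8 * (1 + S ^ 2) ^ 3) * I1, by positivity, fun δ hδ hδ1 y => ?_⟩
  -- the function as a convolution
  have hG : ∀ Y, inv (fun ξ => Φ ξ * chiAt ζ δ ξ) Y =
      ∫ t, g t * (ch ζ (-(Y - t)) * (δ * u (δ * (Y - t)))) := by
    intro Y
    have e1 : (fun ξ => Φ ξ * chiAt ζ δ ξ) = fun ξ => 𝓕 (fun y => inv Φ y) ξ * chiAt ζ δ ξ := by
      funext ξ
      rw [hgF]
    rw [e1, inv_fourier_mul]
    · refine integral_congr_ae (Eventually.of_forall fun t => ?_)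
      simp only
      rw [← hg]
      congr 1
      have := inv_dilate chi hδ ζ (Y - t)
      rw [← hu] at this
      exact this
    · have : (fun y => inv Φ y) = g := (funext hg).symm
      rw [this]
      exact g.integrable
    · exact integrable_cc (chiAt_supp ζ hδ) (chiAt_smooth ζ δ)
  rw [op_avg]
  set Y := β ^ j * y with hY
  -- the splitting
  set c₀ : ℂ := ∫ t, g t * (ch ζ (-(Y - t)) * (δ * u (δ * Y))) with hc₀
  set err : ℝ → ℂ := fun s => ch ζ s * ∫ t, g t * (ch ζ (-(Y - t)) *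
    (δ * (u (δ * (Y - s - t)) - u (δ * Y)))) with herr
  have hgi : Integrable (fun t => g t) := g.integrable
  have hub : ∀ t, ‖u t‖ ≤ Cu := fun t => (hdu t).trans (by
    have := wt_le_one t
    nlinarith)
  have hint : ∀ s, Integrable fun t => g t * (ch ζ (-(Y - t)) * (δ * u (δ * (Y - s - t)))) := by
    intro s
    refine hgi.mul_bdd (c := 1 * (δ * Cu)) ?_ (Eventually.of_forall fun t => ?_)
    · refine Continuous.aestronglyMeasurable ?_
      refine ((continuous_ch ζ).comp (by fun_prop)).mul (continuous_const.mul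
        (u.continuous.comp (by fun_prop)))
    · rw [norm_mul, norm_ch, norm_mul, Complex.norm_real, Real.norm_eq_abs, abs_of_pos hδ]
      exact mul_le_mul_of_nonneg_left (mul_le_mul_of_nonneg_left (hub _) hδ.le) zero_le_one
  have hint0 : Integrable fun t => g t * (ch ζ (-(Y - t)) * (δ * u (δ * Y))) := by
    refine hgi.mul_bdd (c := 1 * (δ * Cu)) ?_ (Eventually.of_forall fun t => ?_)
    · refine Continuous.aestronglyMeasurable ?_
      exact ((continuous_ch ζ).comp (by fun_prop)).mul continuous_const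
    · rw [norm_mul, norm_ch, norm_mul, Complex.norm_real, Real.norm_eq_abs, abs_of_pos hδ]
      exact mul_le_mul_of_nonneg_left (mul_le_mul_of_nonneg_left (hub _) hδ.le) zero_le_one
  have hsplit : ∀ s, inv (fun ξ => Φ ξ * chiAt ζ δ ξ) (Y - s) = c₀ * ch ζ s + err s := by
    intro s
    rw [hG, herr, hc₀]
    simp only
    rw [mul_comm _ (ch ζ s), ← mul_add, ← integral_add hint0]
    · rw [← integral_const_mul]
      refine integral_congr_ae (Eventually.of_forall fun t => ?_)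
      simp only
      rw [show -(Y - s - t) = s + -(Y - t) by ring, ch_add]
      ring
    · have h3 := (hint s).sub hint0
      refine h3.congr (Eventually.of_forall fun t => ?_)
      simp only [Pi.sub_apply]
      ring
  have hfun : (fun s => inv (fun ξ => Φ ξ * chiAt ζ δ ξ) (Y - s)) =
      fun s => (fun s => c₀ * ch ζ s) s + err s := funext hsplit
  rw [hfun, avg_add, avg_mul]
  have hamp : avg β j (ch ζ) = amp β j ζ := avg_exp j ζ
  rw [show avg β j (fun s => ch ζ s) = amp β j ζ from hamp]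
  -- the bounds
  have hc₀b : ‖c₀‖ ≤ G1 * (δ * (Cu * wt (δ * Y))) := by
    rw [hc₀, hG1]
    refine (norm_integral_le_integral_norm _).trans ?_
    rw [← integral_mul_const]
    refine integral_mono hint0.norm (hgi.norm.mul_const _) fun t => ?_
    simp only
    rw [norm_mul, norm_mul, norm_ch, norm_mul, Complex.norm_real, Real.norm_eq_abs,
      abs_of_pos hδ, one_mul]
    exact mul_le_mul_of_nonneg_left (mul_le_mul_of_nonneg_left (hdu _) hδ.le) (norm_nonneg _)
  have herrb : ∀ s, 0 ≤ s → s ≤ S → ‖err s‖ ≤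
      Cg * Ci * (8 * (1 + S ^ 2) ^ 3) * I1 * δ * (δ * wt (δ * Y)) := by
    intro s hs0 hs1
    rw [herr]
    simp only
    rw [norm_mul, norm_ch, one_mul]
    refine (norm_integral_le_integral_norm _).trans ?_
    have e1 : Cg * Ci * (8 * (1 + S ^ 2) ^ 3) * I1 * δ * (δ * wt (δ * Y)) =
        ∫ t : ℝ, Cg * Ci * (8 * (1 + S ^ 2) ^ 3) * δ * (δ * wt (δ * Y)) * ((1 + t ^ 2) ^ 1)⁻¹ := by
      rw [integral_const_mul, ← hI1]
      ring
    rw [e1]
    refine integral_mono ?_ (integrable_inv_sq.const_mul _) fun t => ?_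
    · have h3 := ((hint s).sub hint0).norm
      refine h3.congr (Eventually.of_forall fun t => ?_)
      simp only [Pi.sub_apply]
      congr 1
      ring
    · simp only
      rw [norm_mul, norm_mul, norm_ch, norm_mul, Complex.norm_real, Real.norm_eq_abs,
        abs_of_pos hδ, one_mul]
      have h3 := hdi (δ * Y) (δ * (s + t))
      have e2 : δ * Y - δ * (s + t) = δ * (Y - s - t) := by ring
      rw [e2, abs_mul, abs_of_pos hδ] at h3
      have h4 : (1 + (δ * (s + t)) ^ 2) ^ 2 ≤ (1 + (s + t) ^ 2) ^ 2 := by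
        have h5 : (δ * (s + t)) ^ 2 ≤ (s + t) ^ 2 := by
          rw [mul_pow]
          exact mul_le_of_le_one_left (sq_nonneg _) (pow_le_one₀ hδ.le hδ1)
        gcongr
      have h5 : ‖u (δ * (Y - s - t)) - u (δ * Y)‖ ≤
          Ci * (δ * (8 * (1 + S ^ 2) ^ 3 * (1 + t ^ 2) ^ 3)) * wt (δ * Y) := by
        refine h3.trans (mul_le_mul_of_nonneg_right ?_ (wt_pos _).le)
        rw [mul_assoc, mul_assoc δ]
        refine mul_le_mul_of_nonneg_left (mul_le_mul_of_nonneg_left ?_ hδ.le) hCi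
        exact (mul_le_mul_of_nonneg_left h4 (abs_nonneg _)).trans (shift_bound hs0 hs1)
      calc ‖g t‖ * (δ * ‖u (δ * (Y - s - t)) - u (δ * Y)‖)
          ≤ (Cg * ((1 + t ^ 2) ^ 4)⁻¹) *
            (δ * (Ci * (δ * (8 * (1 + S ^ 2) ^ 3 * (1 + t ^ 2) ^ 3)) * wt (δ * Y))) := by
            refine mul_le_mul (hdg t) (mul_le_mul_of_nonneg_left h5 hδ.le) (by positivity)
              (by positivity)
        _ = Cg * Ci * (8 * (1 + S ^ 2) ^ 3) * δ * (δ * wt (δ * Y)) * ((1 + t ^ 2) ^ 1)⁻¹ := by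
            have h6 : (1 + t ^ 2 : ℝ) ≠ 0 := by positivity
            field_simp
  have h3 : ‖c₀ * amp β j ζ + avg β j err‖ ≤ G1 * (δ * (Cu * wt (δ * Y))) * ‖amp β j ζ‖ +
      Cg * Ci * (8 * (1 + S ^ 2) ^ 3) * I1 * δ * (δ * wt (δ * Y)) := by
    refine (norm_add_le _ _).trans (add_le_add ?_ (avg_norm_le hβ0.le j herrb))
    rw [norm_mul]
    exact mul_le_mul_of_nonneg_right hc₀b (norm_nonneg _)
  rw [norm_mul, norm_pow, Complex.norm_real, Real.norm_eq_abs, abs_of_pos hβ0]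
  refine (mul_le_mul_of_nonneg_left h3 (by positivity)).trans (le_of_eq ?_)
  have e3 : δ * β ^ j * y = δ * Y := by rw [hY]; ring
  rw [e3]
  ring

/-- **Step 3**: the part near a frequency is negligible. -/
lemma freq_small [Fact (1 < β)] (hβ : 1 < β) (hβ2 : β < 2) (hν : bernoulliConv β ≪ volume)
    {x : ℝ} (hx : Good (bernoulliConv β) x) {Φ : ℝ → ℂ} (h1 : HasCompactSupport Φ)
    (h2 : ContDiff ℝ ∞ Φ) {ζ : ℝ} (hζ : ζ ≠ 0) {ε : ℝ} (hε : 0 < ε) :
    ∃ δ : ℝ, 0 < δ ∧ δ ≤ |ζ| ∧ ∀ᶠ n in atTop,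
      ‖(op β)^[n] (inv fun ξ => Φ ξ * chiAt ζ δ ξ) x‖ ≤ ε := by
  have hβ0 : 0 < β := by linarith
  obtain ⟨D, hD, hbd⟩ := hx.op_wt_le hβ
  obtain ⟨A, hA, hfr⟩ := freq_bound hβ h1 h2 ζ
  have hamp := amp_tendsto hβ hν hβ2 hζ
  rw [tendsto_zero_iff_norm_tendsto_zero] at hamp
  have h3 : 0 < ε / (2 * (A + 1) * (D + 1)) := by positivity
  obtain ⟨j, hj⟩ := (hamp.eventually (gt_mem_nhds h3)).exists
  obtain ⟨K, hK, hKj⟩ := hfr j
  have hζ' := abs_pos.2 hζ
  set δ := min (min |ζ| ((β ^ j)⁻¹)) (min 1 (ε / (2 * (K + 1) * (D + 1)))) with hδ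
  have hδ0 : 0 < δ := by
    refine lt_min (lt_min hζ' (by positivity)) (lt_min one_pos (by positivity))
  have hδ1 : δ ≤ |ζ| := (min_le_left _ _).trans (min_le_left _ _)
  have hδ2 : δ ≤ (β ^ j)⁻¹ := (min_le_left _ _).trans (min_le_right _ _)
  have hδ3 : δ ≤ 1 := (min_le_right _ _).trans (min_le_left _ _)
  have hδ4 : δ ≤ ε / (2 * (K + 1) * (D + 1)) := (min_le_right _ _).trans (min_le_right _ _)
  refine ⟨δ, hδ0, hδ1, ?_⟩
  filter_upwards [eventually_ge_atTop j] with n hn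
  obtain ⟨m, rfl⟩ := Nat.exists_eq_add_of_le' hn
  rw [Function.iterate_add_apply]
  refine (op_norm_le hβ0.le (hKj δ hδ0 hδ3) m x).trans ?_
  have e1 : (fun y => (A * ‖amp β j ζ‖ + K * δ) * (δ * β ^ j * wt (δ * β ^ j * y))) =
      fun y => (A * ‖amp β j ζ‖ + K * δ) • (δ * β ^ j * wt (δ * β ^ j * y)) := rfl
  rw [e1, op_smul, smul_eq_mul]
  have h4 : δ * β ^ j ≤ 1 := by
    have := mul_le_mul_of_nonneg_right hδ2 (pow_nonneg hβ0.le j)
    rwa [inv_mul_cancel₀ (pow_ne_zero _ hβ0.ne')] at this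
  have h5 := hbd (δ * β ^ j) (by positivity) h4 m
  have h6 : A * ‖amp β j ζ‖ * D ≤ ε / 2 := by
    rw [lt_div_iff₀ (by positivity)] at hj
    nlinarith [mul_nonneg (norm_nonneg (amp β j ζ)) hA, mul_nonneg (norm_nonneg (amp β j ζ)) hD,
      mul_nonneg (mul_nonneg (norm_nonneg (amp β j ζ)) hA) hD, norm_nonneg (amp β j ζ)]
  have h7 : K * δ * D ≤ ε / 2 := by
    rw [le_div_iff₀ (by positivity)] at hδ4
    nlinarith [mul_nonneg hδ0.le hK, mul_nonneg hδ0.le hD, mul_nonneg (mul_nonneg hδ0.le hK) hD]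
  have h8 : 0 ≤ A * ‖amp β j ζ‖ + K * δ := by positivity
  calc (A * ‖amp β j ζ‖ + K * δ) * (op β)^[m] (fun y => δ * β ^ j * wt (δ * β ^ j * y)) x ≤
      (A * ‖amp β j ζ‖ + K * δ) * D := mul_le_mul_of_nonneg_left h5 h8
    _ = A * ‖amp β j ζ‖ * D + K * δ * D := by ring
    _ ≤ ε := by linarith

/-- **Convergence for band-limited functions.** -/
theorem conv_all [Fact (1 < β)] (hβ : 1 < β) (hβ2 : β < 2) (hν : bernoulliConv β ≪ volume)
    {x : ℝ} (hx : Good (bernoulliConv β) x) {Φ : ℝ → ℂ} (h1 : HasCompactSupport Φ)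
    (h2 : ContDiff ℝ ∞ Φ) : Conv β x Φ := by
  classical
  have key : ∀ (Z : Finset ℝ) (Φ : ℝ → ℂ), HasCompactSupport Φ → ContDiff ℝ ∞ Φ →
      (∀ ξ ∈ tsupport Φ, nuh β ξ = 0 → ξ ∈ Z) → Conv β x Φ := by
    intro Z
    induction Z using Finset.induction with
    | empty =>
      intro Φ h1 h2 h3
      exact conv_base hβ hν hx h1 h2 fun ξ hξ h0 => absurd (h3 ξ hξ h0) (Finset.notMem_empty ξ)
    | insert ζ Z hζZ ih =>
      intro Φ h1 h2 h3
      by_cases hz : nuh β ζ = 0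
      swap
      · refine ih Φ h1 h2 fun ξ hξ h0 => ?_
        rcases Finset.mem_insert.1 (h3 ξ hξ h0) with h | h
        · rw [h] at h0
          exact absurd h0 hz
        · exact h
      have hζ : ζ ≠ 0 := by
        rintro rfl
        rw [nuh_zero] at hz
        exact one_ne_zero hz
      unfold Conv
      rw [Metric.tendsto_atTop]
      intro η hη
      obtain ⟨δ, hδ, hδζ, hev⟩ := freq_small hβ hβ2 hν hx h1 h2 hζ (ε := η / 4) (by positivity)
      set Φ₁ : ℝ → ℂ := fun ξ => Φ ξ * (1 - chiAt ζ δ ξ) with hΦ₁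
      have hs1 : HasCompactSupport Φ₁ := h1.mul_right
      have hm1 : ContDiff ℝ ∞ Φ₁ := h2.mul (contDiff_const.sub (chiAt_smooth ζ δ))
      have hs2 : HasCompactSupport fun ξ => Φ ξ * chiAt ζ δ ξ := h1.mul_right
      have hm2 : ContDiff ℝ ∞ fun ξ => Φ ξ * chiAt ζ δ ξ := h2.mul (chiAt_smooth ζ δ)
      have hc1 : Conv β x Φ₁ := by
        refine ih Φ₁ hs1 hm1 fun ξ hξ h0 => ?_
        have h4 : ξ ∈ tsupport Φ := tsupport_mul_subset_left hξ
        rcases Finset.mem_insert.1 (h3 ξ h4 h0) with h | h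
        · exfalso
          subst h
          refine absurd hξ (notMem_tsupport_iff_eventuallyEq.2 ?_)
          have h5 : ball ξ (δ / 2) ∈ 𝓝 ξ := ball_mem_nhds ξ (by positivity)
          filter_upwards [h5] with t ht
          rw [mem_ball, Real.dist_eq] at ht
          have h6 : chiAt ξ δ t = 1 := by
            apply chi_one
            rw [abs_div, abs_of_pos hδ, div_le_iff₀ hδ]
            linarith
          simp only [hΦ₁, h6]
          simp
        · exact h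
      have h0 : Φ₁ 0 = Φ 0 := by
        have h6 : chiAt ζ δ 0 = 0 := by
          apply chi_eq_zero
          rw [abs_div, abs_of_pos hδ, one_le_div hδ, zero_sub, abs_neg]
          exact hδζ
        simp only [hΦ₁, h6]
        simp
      unfold Conv at hc1
      rw [Metric.tendsto_atTop] at hc1
      obtain ⟨N, hN⟩ := hc1 (η / 2) (by positivity)
      obtain ⟨N', hN'⟩ := eventually_atTop.1 hev
      refine ⟨max N N', fun n hn => ?_⟩
      have e1 : inv Φ = fun y => inv Φ₁ y + inv (fun ξ => Φ ξ * chiAt ζ δ ξ) y := by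
        funext y
        rw [← inv_add (integrable_cc hs1 hm1) (integrable_cc hs2 hm2)]
        congr 1
        funext ξ
        simp only [hΦ₁]
        ring
      have h7 := hN n ((le_max_left _ _).trans hn)
      have h8 := hN' n ((le_max_right _ _).trans hn)
      rw [e1, op_add, dist_eq_norm]
      rw [dist_eq_norm, h0] at h7
      calc ‖(op β)^[n] (inv Φ₁) x + (op β)^[n] (inv fun ξ => Φ ξ * chiAt ζ δ ξ) x -
            dens (bernoulliConv β) x • Φ 0‖
          = ‖((op β)^[n] (inv Φ₁) x - dens (bernoulliConv β) x • Φ 0) +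
            (op β)^[n] (inv fun ξ => Φ ξ * chiAt ζ δ ξ) x‖ := by congr 1; ring
        _ ≤ _ := norm_add_le _ _
        _ < η / 2 + η / 2 := by linarith
        _ = η := by ring
  -- the zeros in the support
  obtain ⟨R, hR⟩ := h1.isBounded.subset_closedBall (0 : ℝ)
  have hfin := zeros_finite hβ hν R
  refine key hfin.toFinset Φ h1 h2 fun ξ hξ h0 => ?_
  rw [Set.Finite.mem_toFinset]
  refine ⟨?_, h0⟩
  have := hR hξ
  rwa [mem_closedBall, Real.dist_eq, sub_zero] at this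

end Pool.Agent.U145.BC
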