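import Pool.Agent.U145.BC.Four

/-!
# Band-limited functions
-/

set_option autoImplicit false

open MeasureTheory Filter Topology Set Metric
open scoped ENNReal ContDiff FourierTransform SchwartzMap

namespace Pool.Agent.U145.BC

open Pool.Agent.Results.MP_ddcbd8_an.SingularDensities (bernoulliConv)

/-- The inverse Fourier transform. -/
noncomputable def inv (Φ : ℝ → ℂ) (y : ℝ) : ℂ := ∫ ξ, ch ξ (-y) * Φ ξ

lemma inv_eq (Φ : ℝ → ℂ) : inv Φ = 𝓕⁻ Φ := by
  funext y
  rw [Real.fourierInv_eq']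
  unfold inv
  refine integral_congr_ae (Eventually.of_forall fun ξ => ?_)
  simp only [ch, smul_eq_mul]
  congr 2
  have : inner ℝ ξ y = y * ξ := rfl
  rw [this]
  push_cast
  ring

lemma fourier_eq_ch (p : ℝ → ℂ) (ξ : ℝ) : 𝓕 p ξ = ∫ t, ch ξ t * p t := by
  rw [Real.fourier_real_eq_integral_exp_smul]
  refine integral_congr_ae (Eventually.of_forall fun t => ?_)
  simp only [ch, smul_eq_mul]
  congr 2
  push_cast
  ring

lemma continuous_ch2 : Continuous fun p : ℝ × ℝ => ch p.1 p.2 := by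
  unfold ch
  fun_prop

lemma ch_zero (ξ : ℝ) : ch ξ 0 = 1 := by simp [ch]

lemma ch_zero' (z : ℝ) : ch 0 z = 1 := by simp [ch]

lemma ch_add' (ξ η z : ℝ) : ch (ξ + η) z = ch ξ z * ch η z := by
  unfold ch
  rw [← Complex.exp_add]
  congr 1
  push_cast
  ring

/-! ### Decay -/

lemma schwartz_decay (F : 𝓢(ℝ, ℂ)) (k : ℕ) : ∃ C : ℝ, 0 ≤ C ∧ ∀ x, ‖F x‖ ≤ C * ((1 + x ^ 2) ^ k)⁻¹ := by
  have h := SchwartzMap.one_add_le_sup_seminorm_apply (𝕜 := ℝ) (m := (2 * k, 0)) (k := 2 * k)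
    (n := 0) le_rfl le_rfl F
  refine ⟨2 ^ (2 * k) * ((Finset.Iic (2 * k, 0)).sup fun m => SchwartzMap.seminorm ℝ m.1 m.2) F,
    by positivity, fun x => ?_⟩
  have h1 := h x
  rw [norm_iteratedFDeriv_zero] at h1
  rw [← div_eq_mul_inv, le_div_iff₀ (by positivity), mul_comm]
  refine le_trans (mul_le_mul_of_nonneg_right ?_ (norm_nonneg _)) h1
  rw [pow_mul]
  refine pow_le_pow_left₀ (by positivity) ?_ k
  rw [Real.norm_eq_abs]
  nlinarith [abs_nonneg x, sq_abs x]

lemma schwartz_wt (F : 𝓢(ℝ, ℂ)) : ∃ C : ℝ, 0 ≤ C ∧ ∀ x, ‖F x‖ ≤ C * wt x := by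
  obtain ⟨C, hC, h⟩ := schwartz_decay F 2
  exact ⟨C, hC, h⟩

/-- Increments of a Schwartz function. -/
lemma schwartz_incr (F : 𝓢(ℝ, ℂ)) : ∃ C : ℝ, 0 ≤ C ∧
    ∀ Y τ, ‖F (Y - τ) - F Y‖ ≤ C * |τ| * (1 + τ ^ 2) ^ 2 * wt Y := by
  obtain ⟨C, hC, h⟩ := schwartz_wt (SchwartzMap.derivCLM ℝ ℂ F)
  refine ⟨4 * C, by positivity, fun Y τ => ?_⟩
  have h1 : ∀ v ∈ segment ℝ Y (Y - τ), ‖deriv F v‖ ≤ C * (4 * (1 + τ ^ 2) ^ 2 * wt Y) := by
    intro v hv
    rw [segment_eq_image'] at hv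
    obtain ⟨θ, hθ, rfl⟩ := hv
    have h2 := h (Y + θ • (Y - τ - Y))
    rw [SchwartzMap.derivCLM_apply] at h2
    refine h2.trans (mul_le_mul_of_nonneg_left ?_ hC)
    have h3 := wt_shift Y (θ * τ)
    have e : Y + θ • (Y - τ - Y) = Y - θ * τ := by
      rw [smul_eq_mul]
      ring
    rw [e]
    refine h3.trans (mul_le_mul_of_nonneg_right ?_ (wt_pos _).le)
    have h4 : (θ * τ) ^ 2 ≤ τ ^ 2 := by
      rw [mul_pow]
      exact mul_le_of_le_one_left (sq_nonneg τ) (pow_le_one₀ hθ.1 hθ.2)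
    gcongr
  have h2 := (convex_segment Y (Y - τ)).norm_image_sub_le_of_norm_deriv_le
    (f := F) (fun v _ => F.differentiableAt) h1 (left_mem_segment ℝ _ _)
    (right_mem_segment ℝ _ _)
  refine h2.trans (le_of_eq ?_)
  rw [show Y - τ - Y = -τ by ring, norm_neg, Real.norm_eq_abs]
  ring

/-! ### Convolution identities -/

lemma integrable_mul_ch {μ ρ : Measure ℝ} [SFinite μ] [SFinite ρ] {X : ℝ × ℝ → ℂ}
    (hX : Integrable X (μ.prod ρ)) {a : ℝ × ℝ → ℝ} {b : ℝ × ℝ → ℝ} (ha : Continuous a)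
    (hb : Continuous b) : Integrable (fun p => ch (a p) (b p) * X p) (μ.prod ρ) := by
  refine hX.bdd_mul (c := 1) ?_ (Eventually.of_forall fun p => (norm_ch _ _).le)
  exact (continuous_ch2.comp (ha.prodMk hb)).aestronglyMeasurable

/-- The inverse Fourier transform of `𝓕 p · X` is the convolution. -/
lemma inv_fourier_mul {p X : ℝ → ℂ} (hp : Integrable p) (hX : Integrable X) (y : ℝ) :
    inv (fun ξ => 𝓕 p ξ * X ξ) y = ∫ t, p t * inv X (y - t) := by
  have e1 : inv (fun ξ => 𝓕 p ξ * X ξ) y = ∫ ξ, ∫ t, ch ξ (t - y) * (X ξ * p t) := by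
    unfold inv
    refine integral_congr_ae (Eventually.of_forall fun ξ => ?_)
    simp only [fourier_eq_ch]
    rw [← integral_mul_const, ← integral_const_mul]
    refine integral_congr_ae (Eventually.of_forall fun t => ?_)
    simp only
    rw [sub_eq_add_neg t y, ch_add]
    ring
  rw [e1, integral_integral_swap]
  · refine integral_congr_ae (Eventually.of_forall fun t => ?_)
    simp only
    unfold inv
    rw [← integral_const_mul]
    refine integral_congr_ae (Eventually.of_forall fun ξ => ?_)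
    simp only
    rw [neg_sub]
    ring
  · exact integrable_mul_ch (hX.mul_prod hp) (a := fun q => q.1) (b := fun q => q.2 - y)
      continuous_fst (by fun_prop)

/-- The inverse Fourier transform of `Ψ · nuh` is the average over the Bernoulli convolution. -/
lemma inv_nuh_mul {β : ℝ} [Fact (1 < β)] {Ψ : ℝ → ℂ} (hΨ : Integrable Ψ) (y : ℝ) :
    inv (fun ξ => Ψ ξ * nuh β ξ) y = Kop (bernoulliConv β) 1 (inv Ψ) y := by
  have e1 : inv (fun ξ => Ψ ξ * nuh β ξ) y = ∫ ξ, ∫ z, ch ξ (z - y) * Ψ ξ ∂(bernoulliConv β) := by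
    unfold inv nuh
    refine integral_congr_ae (Eventually.of_forall fun ξ => ?_)
    simp only
    rw [← integral_const_mul, ← integral_const_mul]
    refine integral_congr_ae (Eventually.of_forall fun z => ?_)
    simp only
    rw [sub_eq_add_neg z y, ch_add]
    ring
  rw [e1, integral_integral_swap]
  · unfold Kop
    rw [one_smul]
    refine integral_congr_ae (Eventually.of_forall fun z => ?_)
    simp only
    unfold inv
    refine integral_congr_ae (Eventually.of_forall fun ξ => ?_)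
    simp only
    rw [one_mul, neg_sub]
  · exact integrable_mul_ch (hΨ.comp_fst (bernoulliConv β)) (a := fun q => q.1)
      (b := fun q => q.2 - y) continuous_fst (by fun_prop)

/-- Modulations and dilations. -/
lemma inv_dilate (X : ℝ → ℂ) {δ : ℝ} (hδ : 0 < δ) (ζ s : ℝ) :
    inv (fun ξ => X ((ξ - ζ) / δ)) s = ch ζ (-s) * (δ * inv X (δ * s)) := by
  unfold inv
  have h1 : ∫ ξ, ch ξ (-s) * X ((ξ - ζ) / δ) = ∫ ξ, ch (ξ + ζ) (-s) * X (ξ / δ) := by
    rw [← integral_add_right_eq_self (fun ξ => ch ξ (-s) * X ((ξ - ζ) / δ)) ζ]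
    simp only [add_sub_cancel_right]
  have h2 : ∫ ξ, ch (ξ + ζ) (-s) * X (ξ / δ) =
      ∫ ξ, (fun η => ch (η * δ + ζ) (-s) * X η) (ξ / δ) := by
    refine integral_congr_ae (Eventually.of_forall fun ξ => ?_)
    simp only
    rw [div_mul_cancel₀ _ hδ.ne']
  have h3 := Measure.integral_comp_div (fun η => ch (η * δ + ζ) (-s) * X η) δ
  rw [h1, h2.trans h3, abs_of_pos hδ, Complex.real_smul, ← integral_const_mul,
    ← integral_const_mul, ← integral_const_mul]
  refine integral_congr_ae (Eventually.of_forall fun ξ => ?_)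
  simp only
  rw [ch_add', ch_mul, mul_neg]
  ring

end Pool.Agent.U145.BC
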