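import Pool.Agent.U145.BC.Meas

/-!
# Averages of the measure with kernels, and the transfer operator
-/

set_option autoImplicit false

open MeasureTheory Filter Topology Set Metric
open scoped ENNReal

namespace Pool.Agent.U145.BC

open Pool.Agent.Results.MP_ddcbd8_an.SingularDensities (bernoulliConv self_similar
  continuous_expansion expansion expansion_mem)

section ker

variable {E : Type*} [NormedAddCommGroup E] [NormedSpace ℝ E]

/-- `λ ∫ ψ(λ (x - z)) dν(z)`. -/
noncomputable def Kop (ν : Measure ℝ) (lam : ℝ) (ψ : ℝ → E) (x : ℝ) : E :=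
  lam • ∫ z, ψ (lam * (x - z)) ∂ν

variable (ν : Measure ℝ)

lemma integral_wt_le [IsProbabilityMeasure ν] {x M : ℝ} (hM : 0 ≤ M)
    (h : ∀ r > 0, ν (closedBall x r) ≤ ENNReal.ofReal (M * r)) {lam : ℝ} (hl : 0 < lam) :
    Kop ν lam wt x ≤ 32 * M := by
  have h1 := lintegral_wt_le ν x hM le_rfl (b := 0) (by
    intro r hr
    rw [zero_mul, add_zero]
    exact h r hr) hl
  have h2 : ∫ z, wt (lam * (x - z)) ∂ν ≤ 32 * (M / lam + 0 / lam ^ 2) := by
    rw [integral_eq_lintegral_of_nonneg_ae (Eventually.of_forall fun z => (wt_pos _).le)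
      (continuous_wt.comp (by fun_prop)).aestronglyMeasurable]
    refine ENNReal.toReal_le_of_le_ofReal ?_ h1
    positivity
  unfold Kop
  rw [smul_eq_mul]
  have h3 := mul_le_mul_of_nonneg_left h2 hl.le
  refine h3.trans (le_of_eq ?_)
  field_simp
  ring

/-- **Approximate identities at good points.** -/
lemma Good.tendsto [IsProbabilityMeasure ν] (hν : ν ≪ volume) {x : ℝ} (hx : Good ν x)
    {ψ : ℝ → ℂ} (hψ : Continuous ψ) {C : ℝ} (hC : ∀ t, ‖ψ t‖ ≤ C * wt t) :
    Tendsto (fun lam => Kop ν lam ψ x) atTop (𝓝 (dens ν x • ∫ t, ψ t)) := by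
  have hC0 : 0 ≤ C := by
    have h1 := (norm_nonneg _).trans (hC 0)
    have h2 := wt_pos 0
    by_contra h
    push Not at h
    nlinarith
  have hψi : Integrable ψ := (integrable_wt.const_mul C).mono' hψ.aestronglyMeasurable
    (Eventually.of_forall hC)
  have hψb : ∀ t, ‖ψ t‖ ≤ C := fun t => (hC t).trans (by
    have := wt_le_one t
    nlinarith)
  have hint := integrable_dens ν
  -- the difference
  have hdiff : ∀ lam > 0, ∀ ε > 0, ∀ b : ℝ, 0 ≤ b → (∀ r > 0,
      ∫⁻ z in closedBall x r, ENNReal.ofReal |dens ν z - dens ν x| ≤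
        ENNReal.ofReal (ε * r + b * r ^ 2)) →
      ‖Kop ν lam ψ x - dens ν x • ∫ t, ψ t‖ ≤ C * (32 * (ε + b / lam)) := by
    intro lam hl ε hε b hb hbd
    have e1 : ∫ z, ψ (lam * (x - z)) ∂ν = ∫ z, dens ν z • ψ (lam * (x - z)) := by
      rw [← integral_rnDeriv_smul hν]
      rfl
    have hcv : Integrable fun z => ψ (lam * (x - z)) := by
      have h1 : Integrable fun z => ψ (lam * z) := hψi.comp_mul_left' hl.ne'
      exact (h1.comp_sub_left x)
    have e2 : ∫ t, ψ t = lam • ∫ z, ψ (lam * (x - z)) := by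
      have h1 : ∫ z, ψ (lam * (x - z)) = ∫ z, ψ (lam * z) :=
        integral_sub_left_eq_self (fun z => ψ (lam * z)) volume x
      rw [h1, Measure.integral_comp_mul_left, abs_of_pos (by positivity), smul_smul,
        mul_inv_cancel₀ hl.ne', one_smul]
    have hcvm : Continuous fun z => ψ (lam * (x - z)) := hψ.comp (by fun_prop)
    have hi1 : Integrable fun z => dens ν z • ψ (lam * (x - z)) := by
      refine hint.smul_bdd C ?_ ?_
      · exact hcvm.aestronglyMeasurable
      · exact Eventually.of_forall fun z => hψb _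
    have hi2 : Integrable fun z => dens ν x • ψ (lam * (x - z)) := hcv.smul (dens ν x)
    have e3 : Kop ν lam ψ x - dens ν x • ∫ t, ψ t =
        lam • ∫ z, (dens ν z - dens ν x) • ψ (lam * (x - z)) := by
      unfold Kop
      rw [e1, e2, smul_comm (dens ν x) lam, ← smul_sub, ← integral_smul (dens ν x),
        ← integral_sub hi1 hi2]
      simp only [sub_smul]
    rw [e3, norm_smul, Real.norm_eq_abs, abs_of_pos hl]
    have h1 : ‖∫ z, (dens ν z - dens ν x) • ψ (lam * (x - z))‖ ≤
        C * (32 * (ε / lam + b / lam ^ 2)) := by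
      refine (norm_integral_le_lintegral_norm _).trans ?_
      have hμ := lintegral_wt_le ((volume : Measure ℝ).withDensity
        fun z => ENNReal.ofReal |dens ν z - dens ν x|) x hε.le hb (by
          intro r hr
          rw [withDensity_apply _ measurableSet_closedBall]
          exact hbd r hr) hl
      rw [lintegral_withDensity_eq_lintegral_mul _ (by
        exact (((measurable_dens ν).sub_const _).abs).ennreal_ofReal) (by
        exact (continuous_wt.comp (by fun_prop)).measurable.ennreal_ofReal)] at hμ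
      have h2 : ∫⁻ z, ENNReal.ofReal ‖(dens ν z - dens ν x) • ψ (lam * (x - z))‖ ≤
          ENNReal.ofReal (C * (32 * (ε / lam + b / lam ^ 2))) := by
        rw [ENNReal.ofReal_mul hC0]
        refine le_trans ?_ (mul_le_mul' le_rfl hμ)
        rw [← lintegral_const_mul' _ _ ENNReal.ofReal_ne_top]
        refine lintegral_mono fun z => ?_
        simp only [Pi.mul_apply]
        rw [← ENNReal.ofReal_mul (abs_nonneg _), ← ENNReal.ofReal_mul hC0]
        refine ENNReal.ofReal_le_ofReal ?_
        rw [norm_smul, Real.norm_eq_abs]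
        calc |dens ν z - dens ν x| * ‖ψ (lam * (x - z))‖ ≤
            |dens ν z - dens ν x| * (C * wt (lam * (x - z))) :=
              mul_le_mul_of_nonneg_left (hC _) (abs_nonneg _)
          _ = C * (|dens ν z - dens ν x| * wt (lam * (x - z))) := by ring
      exact ENNReal.toReal_le_of_le_ofReal (by positivity) h2
    have h2 := mul_le_mul_of_nonneg_left h1 hl.le
    refine h2.trans (le_of_eq ?_)
    field_simp
  rw [Metric.tendsto_atTop]
  intro η hη
  obtain ⟨b, hb, hbd⟩ := hx.leb (η / (64 * (C + 1))) (by positivity)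
  refine ⟨64 * (C + 1) * (b + 1) * 2 / η + 1, fun lam hlam => ?_⟩
  have hl : 0 < lam := lt_of_lt_of_le (by positivity) hlam
  rw [dist_eq_norm]
  refine lt_of_le_of_lt (hdiff lam hl _ (by positivity) b hb hbd) ?_
  have h1 : C * (32 * (η / (64 * (C + 1)))) ≤ η / 2 := by
    rw [div_eq_mul_inv, show C * (32 * (η * (64 * (C + 1))⁻¹)) = η / 2 * (C * (C + 1)⁻¹) by
      rw [mul_inv]; ring]
    refine mul_le_of_le_one_right (by positivity) ?_
    rw [mul_inv_le_iff₀ (by positivity)]
    linarith
  have h2 : C * (32 * (b / lam)) < η / 2 := by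
    have h3 : 64 * (C + 1) * (b + 1) * 2 / η < lam := by linarith
    rw [div_lt_iff₀ hη] at h3
    rw [show C * (32 * (b / lam)) = 32 * C * b / lam by ring, div_lt_iff₀ hl]
    nlinarith [mul_nonneg hC0 hb]
  calc C * (32 * (η / (64 * (C + 1)) + b / lam)) =
      C * (32 * (η / (64 * (C + 1)))) + C * (32 * (b / lam)) := by ring
    _ < η := by linarith

end ker

section self

variable {β : ℝ}

lemma self_measure (hβ : 1 < β) : bernoulliConv β =
    (2⁻¹ : ℝ≥0∞) • (bernoulliConv β).map (fun x => x / β) +
      (2⁻¹ : ℝ≥0∞) • (bernoulliConv β).map (fun x => (1 + x) / β) := by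
  ext A hA
  have hm0 : Measurable fun x : ℝ => x / β := by fun_prop
  have hm1 : Measurable fun x : ℝ => (1 + x) / β := by fun_prop
  rw [Measure.add_apply, Measure.smul_apply, Measure.smul_apply, Measure.map_apply hm0 hA,
    Measure.map_apply hm1 hA, self_similar hβ hA]
  rfl

lemma self_integral {E : Type*} [NormedAddCommGroup E] [NormedSpace ℝ E] (hβ : 1 < β)
    [Fact (1 < β)] {F : ℝ → E} (hF : Continuous F) {C : ℝ} (hC : ∀ t, ‖F t‖ ≤ C) :
    ∫ z, F z ∂(bernoulliConv β) = (1 / 2 : ℝ) •
      (∫ z, F (z / β) ∂(bernoulliConv β) + ∫ z, F ((1 + z) / β) ∂(bernoulliConv β)) := by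
  have hm0 : Measurable fun x : ℝ => x / β := by fun_prop
  have hm1 : Measurable fun x : ℝ => (1 + x) / β := by fun_prop
  have hb : ∀ (μ : Measure ℝ) [IsFiniteMeasure μ], Integrable F μ := fun μ _ =>
    Integrable.of_bound hF.aestronglyMeasurable C (Eventually.of_forall hC)
  conv_lhs => rw [self_measure hβ]
  have : IsProbabilityMeasure ((bernoulliConv β).map (fun x => x / β)) :=
    Measure.isProbabilityMeasure_map hm0.aemeasurable
  have : IsProbabilityMeasure ((bernoulliConv β).map (fun x => (1 + x) / β)) :=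
    Measure.isProbabilityMeasure_map hm1.aemeasurable
  rw [integral_add_measure ((hb _).smul_measure (by norm_num))
    ((hb _).smul_measure (by norm_num)), integral_smul_measure, integral_smul_measure,
    integral_map hm0.aemeasurable hF.aestronglyMeasurable,
    integral_map hm1.aemeasurable hF.aestronglyMeasurable, ← smul_add]
  congr 1
  simp

/-- The transfer operator and the kernels. -/
lemma op_Kop {E : Type*} [NormedAddCommGroup E] [NormedSpace ℝ E] (hβ : 1 < β) [Fact (1 < β)]
    {ψ : ℝ → E} (hψ : Continuous ψ) {C : ℝ}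
    (hC : ∀ t, ‖ψ t‖ ≤ C) (lam : ℝ) (n : ℕ) (x : ℝ) :
    (op β)^[n] (Kop (bernoulliConv β) lam ψ) x = Kop (bernoulliConv β) (lam * β ^ n) ψ x := by
  have hβ0 : β ≠ 0 := by positivity
  induction n generalizing x with
  | zero => simp
  | succ n ih =>
    rw [iter_succ, op_apply, ih, ih]
    have e := self_integral hβ (F := fun z => ψ (lam * β ^ (n + 1) * (x - z)))
      (hψ.comp (by fun_prop)) (C := C) (fun t => hC _)
    unfold Kop
    rw [e]
    have e0 : ∀ z, ψ (lam * β ^ n * (β * x - z)) = ψ (lam * β ^ (n + 1) * (x - z / β)) := by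
      intro z
      congr 1
      rw [pow_succ]
      field_simp
    have e1 : ∀ z, ψ (lam * β ^ n * (β * x - 1 - z)) =
        ψ (lam * β ^ (n + 1) * (x - (1 + z) / β)) := by
      intro z
      congr 1
      rw [pow_succ]
      field_simp
      ring
    simp only [e0, e1]
    rw [← smul_add, smul_smul, smul_smul]
    congr 1
    rw [pow_succ]
    ring

lemma ae_mem (hβ : 1 < β) : ∀ᵐ z ∂(bernoulliConv β), z ∈ Icc 0 (1 / (β - 1)) := by
  unfold bernoulliConv
  refine (ae_map_iff (p := fun z => z ∈ Icc (0 : ℝ) (1 / (β - 1)))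
    (continuous_expansion hβ).measurable.aemeasurable measurableSet_Icc).2 ?_
  exact Eventually.of_forall fun a => expansion_mem hβ a

/-- **The uniform bound**: at a good point the iterates of the transfer operator on the functions
`λ (1 + (λ y) ^ 2) ^ (-2)`, `0 < λ ≤ 1`, are bounded. -/
lemma Good.op_wt_le [Fact (1 < β)] (hβ : 1 < β) {x : ℝ} (hx : Good (bernoulliConv β) x) :
    ∃ D : ℝ, 0 ≤ D ∧ ∀ lam, 0 < lam → lam ≤ 1 → ∀ n : ℕ,
      (op β)^[n] (fun y => lam * wt (lam * y)) x ≤ D := by
  obtain ⟨M, hM, hbd⟩ := hx.bound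
  set B := 1 / (β - 1) with hB
  have hB0 : 0 ≤ B := by
    have : 0 < β - 1 := by linarith
    positivity
  set c := 4 * (1 + B ^ 2) ^ 2 with hc
  have hc0 : 0 ≤ c := by positivity
  refine ⟨c * (32 * M), by positivity, fun lam hl hl1 n => ?_⟩
  have h1 : ∀ y, lam * wt (lam * y) ≤ c • Kop (bernoulliConv β) lam wt y := by
    intro y
    have h2 : wt (lam * y) = ∫ _z, wt (lam * y) ∂(bernoulliConv β) := by simp
    have h3 : ∫ _z, wt (lam * y) ∂(bernoulliConv β) ≤
        ∫ z, c * wt (lam * (y - z)) ∂(bernoulliConv β) := by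
      refine integral_mono_ae (integrable_const _) ?_ ?_
      · exact (Integrable.of_bound (continuous_wt.comp (by fun_prop)).aestronglyMeasurable 1
          (Eventually.of_forall fun z => by
            rw [Function.comp_apply, Real.norm_eq_abs, abs_of_pos (wt_pos _)]
            exact wt_le_one _)).const_mul _
      · filter_upwards [ae_mem hβ] with z hz
        have h4 := wt_shift (lam * (y - z)) (-(lam * z))
        have e : lam * (y - z) - -(lam * z) = lam * y := by ring
        rw [e] at h4
        refine h4.trans (mul_le_mul_of_nonneg_right ?_ (wt_pos _).le)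
        rw [hc]
        have h5 : (-(lam * z)) ^ 2 ≤ B ^ 2 := by
          rw [neg_sq]
          refine pow_le_pow_left₀ (mul_nonneg hl.le hz.1) ?_ 2
          exact (mul_le_of_le_one_left hz.1 hl1).trans hz.2
        gcongr
    rw [integral_const_mul] at h3
    unfold Kop
    rw [smul_eq_mul, smul_eq_mul]
    have h4 := mul_le_mul_of_nonneg_left h3 hl.le
    rw [← h2] at h4
    linarith
  refine (op_mono (by linarith) h1 n x).trans ?_
  rw [op_smul, op_Kop hβ continuous_wt (C := 1) (fun t => by
    rw [Real.norm_eq_abs, abs_of_pos (wt_pos _)]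
    exact wt_le_one _), smul_eq_mul]
  exact mul_le_mul_of_nonneg_left
    (integral_wt_le _ hM hbd (by positivity)) hc0

end self

end Pool.Agent.U145.BC
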