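import Pool.Agent.U145.BC.Freq

/-!
# Pointwise convergence of the approximating densities
-/

set_option autoImplicit false

open MeasureTheory Filter Topology Set Metric
open scoped ENNReal ContDiff FourierTransform SchwartzMap

namespace Pool.Agent.U145.BC

open Pool.Agent.Results.MP_ddcbd8_an.SingularDensities (bernoulliConv f)

variable {β : ℝ}

/-- Approximation of smooth functions by band-limited functions. -/
lemma approx {p : ℝ → ℂ} (h1 : HasCompactSupport p) (h2 : ContDiff ℝ ∞ p) :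
    ∃ E : ℝ, 0 ≤ E ∧ ∀ R : ℝ, 1 ≤ R → ∃ Φ : ℝ → ℂ, HasCompactSupport Φ ∧ ContDiff ℝ ∞ Φ ∧
      Φ 0 = ∫ t, p t ∧ ∀ y, ‖p y - inv Φ y‖ ≤ E / R * wt y := by
  obtain ⟨u, hu, -⟩ := exists_schwartz chi_supp chi_smooth
  obtain ⟨Cu, hCu, hdu⟩ := schwartz_decay u 4
  set g : 𝓢(ℝ, ℂ) := h1.toSchwartzMap h2 with hg
  have hgp : ∀ t, g t = p t := fun t => rfl
  obtain ⟨Ci, hCi, hdi⟩ := schwartz_incr g
  have hpi : Integrable p := integrable_cc h1 h2
  set I1 := ∫ t : ℝ, ((1 + t ^ 2) ^ 1)⁻¹ with hI1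
  have hI10 : 0 ≤ I1 := integral_nonneg fun t => by positivity
  refine ⟨Ci * Cu * I1, by positivity, fun R hR => ?_⟩
  have hR0 : 0 < R := by linarith
  refine ⟨fun ξ => 𝓕 p ξ * chiAt 0 R ξ, (chiAt_supp 0 hR0).mul_left, ?_, ?_, fun y => ?_⟩
  · refine ContDiff.mul ?_ (chiAt_smooth 0 R)
    have e : (𝓕 p : ℝ → ℂ) = (𝓕 g : 𝓢(ℝ, ℂ)) := by
      rw [SchwartzMap.fourier_coe]
      rfl
    rw [e]
    exact (𝓕 g : 𝓢(ℝ, ℂ)).smooth ⊤
  · have e : chiAt 0 R 0 = 1 := chi_one (by simp)
    show 𝓕 p 0 * chiAt 0 R 0 = _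
    rw [e, mul_one, fourier_eq_ch]
    simp only [ch_zero', one_mul]
  · have e1 : inv (fun ξ => 𝓕 p ξ * chiAt 0 R ξ) y = ∫ s, p (y - s) * (R * u (R * s)) := by
      rw [inv_fourier_mul hpi (integrable_cc (chiAt_supp 0 hR0) (chiAt_smooth 0 R))]
      have e2 : ∀ t, inv (chiAt 0 R) (y - t) = R * u (R * (y - t)) := by
        intro t
        have := inv_dilate chi hR0 0 (y - t)
        rw [ch_zero', one_mul, ← hu] at this
        exact this
      simp only [e2]
      rw [← integral_sub_left_eq_self (fun s => p (y - s) * (R * u (R * s))) volume y]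
      refine integral_congr_ae (Eventually.of_forall fun t => ?_)
      simp only
      rw [sub_sub_cancel]
    have hui : Integrable fun s => (R : ℂ) * u (R * s) :=
      (u.integrable.comp_mul_left' hR0.ne').const_mul _
    have hu1 : ∫ s, (R : ℂ) * u (R * s) = 1 := by
      rw [integral_const_mul, Measure.integral_comp_mul_left (fun s => u s) R,
        abs_of_pos (inv_pos.2 hR0), Complex.real_smul, ← mul_assoc, Complex.ofReal_inv,
        mul_inv_cancel₀ (by exact_mod_cast hR0.ne'), one_mul]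
      have := integral_inv chi_supp chi_smooth
      rw [chi_one (by simp)] at this
      rw [← this]
      exact integral_congr_ae (Eventually.of_forall fun t => hu t)
    have hpb : ∃ C, ∀ t, ‖p t‖ ≤ C := by
      obtain ⟨C, hC, h⟩ := schwartz_wt g
      exact ⟨C, fun t => (h t).trans (by
        have := wt_le_one t
        nlinarith)⟩
    obtain ⟨Cp, hCp⟩ := hpb
    have hi2 : Integrable fun s => p (y - s) * (R * u (R * s)) := by
      refine hui.bdd_mul (c := Cp) ?_ (Eventually.of_forall fun t => hCp _)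
      exact (h2.continuous.comp (by fun_prop)).aestronglyMeasurable
    have e3 : p y - inv (fun ξ => 𝓕 p ξ * chiAt 0 R ξ) y =
        ∫ s, (p y - p (y - s)) * (R * u (R * s)) := by
      rw [e1]
      have e4 : p y = ∫ s, p y * (R * u (R * s)) := by
        rw [integral_const_mul, hu1, mul_one]
      conv_lhs => rw [e4]
      rw [← integral_sub (hui.const_mul _) hi2]
      simp only [sub_mul]
    rw [e3]
    have hi3 : Integrable fun s => (p y - p (y - s)) * (R * u (R * s)) := by
      have := (hui.const_mul (p y)).sub hi2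
      refine this.congr (Eventually.of_forall fun s => ?_)
      simp only [Pi.sub_apply]
      ring
    refine (norm_integral_le_integral_norm _).trans ?_
    have hI2 : ∫ s : ℝ, (R : ℝ) * ((1 + (R * s) ^ 2) ^ 1)⁻¹ = I1 := by
      rw [integral_const_mul, Measure.integral_comp_mul_left (fun s : ℝ => ((1 + s ^ 2) ^ 1)⁻¹) R,
        abs_of_pos (inv_pos.2 hR0), smul_eq_mul, ← mul_assoc, mul_inv_cancel₀ hR0.ne', one_mul]
    have e5 : Ci * Cu * I1 / R * wt y =
        ∫ s : ℝ, Ci * Cu / R * wt y * (R * ((1 + (R * s) ^ 2) ^ 1)⁻¹) := by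
      rw [integral_const_mul, hI2]
      ring
    rw [e5]
    refine integral_mono hi3.norm ?_ fun s => ?_
    · exact ((integrable_inv_sq.comp_mul_left' hR0.ne').const_mul R).const_mul _
    · simp only
      rw [norm_mul, norm_mul, Complex.norm_real, Real.norm_eq_abs, abs_of_pos hR0]
      have h3 := hdi y s
      rw [hgp, hgp, norm_sub_rev] at h3
      have h4 := hdu (R * s)
      have h5 : |s| * (1 + s ^ 2) ^ 2 ≤ 1 / R * (1 + (R * s) ^ 2) ^ 3 := by
        have h6 : s ^ 2 ≤ (R * s) ^ 2 := by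
          rw [mul_pow]
          exact le_mul_of_one_le_left (sq_nonneg s) (one_le_pow₀ hR)
        have h7 : |s| = 1 / R * |R * s| := by
          rw [abs_mul, abs_of_pos hR0]
          field_simp
        have h8 : |R * s| ≤ 1 + (R * s) ^ 2 := by
          nlinarith [sq_nonneg (|R * s| - 1), sq_abs (R * s), abs_nonneg (R * s)]
        rw [h7, mul_assoc]
        refine mul_le_mul_of_nonneg_left ?_ (by positivity)
        calc |R * s| * (1 + s ^ 2) ^ 2 ≤ (1 + (R * s) ^ 2) * (1 + (R * s) ^ 2) ^ 2 := by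
              gcongr
          _ = (1 + (R * s) ^ 2) ^ 3 := by ring
      calc ‖p y - p (y - s)‖ * (R * ‖u (R * s)‖)
          ≤ (Ci * |s| * (1 + s ^ 2) ^ 2 * wt y) * (R * (Cu * ((1 + (R * s) ^ 2) ^ 4)⁻¹)) := by
            refine mul_le_mul h3 (mul_le_mul_of_nonneg_left h4 hR0.le) (by positivity) ?_
            have := (wt_pos y).le
            positivity
        _ = (|s| * (1 + s ^ 2) ^ 2) * (Ci * Cu * wt y * R * ((1 + (R * s) ^ 2) ^ 4)⁻¹) := by ring
        _ ≤ (1 / R * (1 + (R * s) ^ 2) ^ 3) *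
            (Ci * Cu * wt y * R * ((1 + (R * s) ^ 2) ^ 4)⁻¹) := by
            refine mul_le_mul_of_nonneg_right h5 ?_
            have := (wt_pos y).le
            positivity
        _ = Ci * Cu / R * wt y * (R * ((1 + (R * s) ^ 2) ^ 1)⁻¹) := by
            have h9 : (1 + (R * s) ^ 2 : ℝ) ≠ 0 := by positivity
            field_simp

/-- **Convergence for smooth compactly supported functions.** -/
theorem conv_smooth [Fact (1 < β)] (hβ : 1 < β) (hβ2 : β < 2) (hν : bernoulliConv β ≪ volume)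
    {x : ℝ} (hx : Good (bernoulliConv β) x) {p : ℝ → ℝ} (h1 : HasCompactSupport p)
    (h2 : ContDiff ℝ ∞ p) :
    Tendsto (fun n => (op β)^[n] p x) atTop (𝓝 (dens (bernoulliConv β) x * ∫ t, p t)) := by
  obtain ⟨D, hD, hbd⟩ := hx.op_wt_le hβ
  have h1' : HasCompactSupport fun t => (p t : ℂ) :=
    h1.comp_left (g := fun r : ℝ => (r : ℂ)) Complex.ofReal_zero
  have h2' : ContDiff ℝ ∞ fun t => (p t : ℂ) := Complex.ofRealCLM.contDiff.comp h2
  obtain ⟨E, hE, happ⟩ := approx h1' h2'
  rw [Metric.tendsto_atTop]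
  intro η hη
  obtain ⟨Φ, hs, hm, h0, hb⟩ := happ (2 * (E + 1) * (D + 1) / η + 1) (by
    have : 0 ≤ 2 * (E + 1) * (D + 1) / η := by positivity
    linarith)
  set R := 2 * (E + 1) * (D + 1) / η + 1 with hR
  have hR0 : 0 < R := by positivity
  have hc := conv_all hβ hβ2 hν hx hs hm
  unfold Conv at hc
  rw [Metric.tendsto_atTop] at hc
  obtain ⟨N, hN⟩ := hc (η / 2) (by positivity)
  refine ⟨N, fun n hn => ?_⟩
  have h3 := hN n hn
  have e1 : (((op β)^[n] p x : ℝ) : ℂ) = (op β)^[n] (inv Φ) x +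
      (op β)^[n] (fun y => (p y : ℂ) - inv Φ y) x := by
    have e0 : (fun y => (p y : ℂ)) = fun y => inv Φ y + ((p y : ℂ) - inv Φ y) := by
      funext y
      ring
    rw [← op_ofReal, ← op_add, ← e0]
  have h4 : ‖(op β)^[n] (fun y => (p y : ℂ) - inv Φ y) x‖ ≤ E / R * D := by
    refine (op_norm_le (by linarith) hb n x).trans ?_
    have e2 : (fun y => E / R * wt y) = fun y => (E / R) • (1 * wt (1 * y)) := by
      funext y
      rw [one_mul, one_mul, smul_eq_mul]
    rw [e2, op_smul, smul_eq_mul]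
    exact mul_le_mul_of_nonneg_left (hbd 1 one_pos le_rfl n) (by positivity)
  have h5 : E / R * D ≤ η / 2 := by
    rw [div_mul_eq_mul_div, div_le_iff₀ hR0]
    have h6 : η / 2 * R = (E + 1) * (D + 1) + η / 2 := by
      rw [hR]
      field_simp
    rw [h6]
    nlinarith
  have e3 : (((dens (bernoulliConv β) x * ∫ t, p t : ℝ)) : ℂ) =
      dens (bernoulliConv β) x • Φ 0 := by
    rw [h0, integral_complex_ofReal, Complex.real_smul]
    push_cast
    ring
  have h6 : dist ((op β)^[n] p x) (dens (bernoulliConv β) x * ∫ t, p t) =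
      ‖(((op β)^[n] p x : ℝ) : ℂ) - ((dens (bernoulliConv β) x * ∫ t, p t : ℝ) : ℂ)‖ := by
    rw [← Complex.ofReal_sub, Complex.norm_real, dist_eq_norm]
  rw [h6, e1, e3]
  rw [dist_eq_norm] at h3
  calc ‖(op β)^[n] (inv Φ) x + (op β)^[n] (fun y => (p y : ℂ) - inv Φ y) x -
        dens (bernoulliConv β) x • Φ 0‖
      = ‖((op β)^[n] (inv Φ) x - dens (bernoulliConv β) x • Φ 0) +
        (op β)^[n] (fun y => (p y : ℂ) - inv Φ y) x‖ := by congr 1; ring
    _ ≤ _ := norm_add_le _ _
    _ < η / 2 + η / 2 := by linarith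
    _ = η := by ring

lemma f_eq (n : ℕ) : f β n = (op β)^[n] (f β 0) := by
  induction n with
  | zero => rfl
  | succ n ih =>
    rw [iter_succ, ← ih]
    rfl

/-- **Convergence at good points.** -/
theorem conv_f [Fact (1 < β)] (hβ : 1 < β) (hβ2 : β < 2) (hν : bernoulliConv β ≪ volume)
    {x : ℝ} (hx : Good (bernoulliConv β) x) :
    Tendsto (fun n => f β n x) atTop (𝓝 (dens (bernoulliConv β) x)) := by
  have hβ1 : 0 < β - 1 := by linarith
  set B := 1 / (β - 1) with hB
  have hB0 : 0 < B := by positivity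
  have hBβ : (β - 1) * B = 1 := by rw [hB]; field_simp
  set d := dens (bernoulliConv β) x with hd
  have hd0 : 0 ≤ d := dens_nonneg _ x
  have hf0 : ∀ y, f β 0 y = (Icc 0 B).indicator (fun _ => β - 1) y := fun y => rfl
  rw [Metric.tendsto_atTop]
  intro η hη
  set ε := min (B / 4) (η / (8 * (d + 1) * (β - 1))) with hε
  have hε0 : 0 < ε := lt_min (by positivity) (by positivity)
  have hε1 : ε ≤ B / 4 := min_le_left _ _
  have hε2 : ε ≤ η / (8 * (d + 1) * (β - 1)) := min_le_right _ _
  have hsmall : d * (2 * ε * (β - 1)) ≤ η / 4 := by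
    rw [le_div_iff₀ (by positivity)] at hε2
    nlinarith [mul_nonneg hd0 (mul_nonneg hε0.le hβ1.le), mul_nonneg hε0.le hβ1.le]
  let bp : ContDiffBump (B / 2) := ⟨B / 2, B / 2 + ε, by positivity, by linarith⟩
  let bm : ContDiffBump (B / 2) := ⟨B / 2 - ε, B / 2, by linarith, by linarith⟩
  have hp1 : HasCompactSupport fun t => (β - 1) * bp t := bp.hasCompactSupport.mul_left
  have hp2 : ContDiff ℝ ∞ fun t => (β - 1) * bp t := contDiff_const.mul bp.contDiff
  have hm1 : HasCompactSupport fun t => (β - 1) * bm t := bm.hasCompactSupport.mul_left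
  have hm2 : ContDiff ℝ ∞ fun t => (β - 1) * bm t := contDiff_const.mul bm.contDiff
  have hup : ∀ y, f β 0 y ≤ (β - 1) * bp y := by
    intro y
    rw [hf0]
    by_cases hy : y ∈ Icc 0 B
    · rw [indicator_of_mem hy, bp.one_of_mem_closedBall, mul_one]
      rw [mem_closedBall, Real.dist_eq, abs_le]
      show -(B / 2) ≤ y - B / 2 ∧ y - B / 2 ≤ B / 2
      constructor <;> linarith [hy.1, hy.2]
    · rw [indicator_of_notMem hy]
      exact mul_nonneg hβ1.le bp.nonneg
  have hlo : ∀ y, (β - 1) * bm y ≤ f β 0 y := by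
    intro y
    rw [hf0]
    by_cases hy : y ∈ Icc 0 B
    · rw [indicator_of_mem hy]
      exact mul_le_of_le_one_right hβ1.le bm.le_one
    · rw [indicator_of_notMem hy, bm.zero_of_le_dist, mul_zero]
      show B / 2 ≤ dist y (B / 2)
      rw [Real.dist_eq, le_abs]
      by_contra hcon
      push Not at hcon
      exact hy ⟨by linarith [hcon.2], by linarith [hcon.1]⟩
  have hvol : ∀ r : ℝ, 0 ≤ r → (volume : Measure ℝ).real (closedBall (B / 2) r) = 2 * r := by
    intro r hr
    rw [Measure.real, Real.volume_closedBall, ENNReal.toReal_ofReal (by positivity)]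
  have hip : ∫ t, (β - 1) * bp t ≤ 1 + 2 * ε * (β - 1) := by
    rw [integral_const_mul]
    have h3 := bp.integral_le_measure_closedBall (μ := (volume : Measure ℝ))
    rw [hvol _ (by show (0 : ℝ) ≤ B / 2 + ε; positivity)] at h3
    have h4 : ∫ t, bp t ≤ 2 * (B / 2 + ε) := h3
    nlinarith
  have him : 1 - 2 * ε * (β - 1) ≤ ∫ t, (β - 1) * bm t := by
    rw [integral_const_mul]
    have h3 := bm.measure_closedBall_le_integral (μ := (volume : Measure ℝ))
    rw [hvol _ (by show (0 : ℝ) ≤ B / 2 - ε; linarith)] at h3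
    have h4 : 2 * (B / 2 - ε) ≤ ∫ t, bm t := h3
    nlinarith
  have hcp := conv_smooth hβ hβ2 hν hx hp1 hp2
  have hcm := conv_smooth hβ hβ2 hν hx hm1 hm2
  rw [Metric.tendsto_atTop] at hcp hcm
  obtain ⟨N₁, hN₁⟩ := hcp (η / 2) (by positivity)
  obtain ⟨N₂, hN₂⟩ := hcm (η / 2) (by positivity)
  refine ⟨max N₁ N₂, fun n hn => ?_⟩
  have h3 := hN₁ n ((le_max_left _ _).trans hn)
  have h4 := hN₂ n ((le_max_right _ _).trans hn)
  have h5 := op_mono (by linarith : (0 : ℝ) ≤ β) hup n x
  have h6 := op_mono (by linarith : (0 : ℝ) ≤ β) hlo n x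
  rw [Real.dist_eq, abs_lt] at h3 h4
  have h7 := mul_le_mul_of_nonneg_left hip hd0
  have h8 := mul_le_mul_of_nonneg_left him hd0
  rw [Real.dist_eq, abs_lt, f_eq]
  constructor <;> nlinarith [h3.1, h3.2, h4.1, h4.2]

/-- **Pointwise convergence of the approximating densities**, if the Bernoulli convolution is
absolutely continuous. -/
theorem main (hβ : 1 < β) (hβ2 : β < 2) (hν : bernoulliConv β ≪ volume) :
    ∀ᵐ x ∂(volume : Measure ℝ), Tendsto (fun n => f β n x) atTop
      (𝓝 ((bernoulliConv β).rnDeriv volume x).toReal) := by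
  have : Fact (1 < β) := ⟨hβ⟩
  filter_upwards [ae_good (bernoulliConv β) hν] with x hx
  exact conv_f hβ hβ2 hν hx

end Pool.Agent.U145.BC
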