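import Pool.Agent.U145.BC.Op

/-!
# Approximate identities at Lebesgue points
-/

set_option autoImplicit false

open MeasureTheory Filter Topology Set Metric
open scoped ENNReal

namespace Pool.Agent.U145.BC

lemma wt_dyadic (t : ℝ) : ∃ k : ℕ, |t| ≤ 2 ^ k ∧ wt t ≤ 16 * (1 / 16) ^ k := by
  by_cases h : |t| ≤ 1
  · exact ⟨0, by simpa using h, by simpa using (wt_le_one t).trans (by norm_num)⟩
  · push Not at h
    have hex : ∃ k : ℕ, |t| ≤ 2 ^ k := by
      obtain ⟨k, hk⟩ := pow_unbounded_of_one_lt |t| (by norm_num : (1 : ℝ) < 2)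
      exact ⟨k, hk.le⟩
    classical
    let k := Nat.find hex
    have hk : |t| ≤ 2 ^ k := Nat.find_spec hex
    have hk0 : k ≠ 0 := by
      intro h0
      rw [h0, pow_zero] at hk
      linarith
    obtain ⟨m, hm⟩ := Nat.exists_eq_succ_of_ne_zero hk0
    have hm' : ¬ |t| ≤ 2 ^ m := Nat.find_min hex (by
      show m < k
      rw [hm]
      exact Nat.lt_succ_self m)
    push Not at hm'
    refine ⟨k, hk, ?_⟩
    rw [hm, Nat.succ_eq_add_one, pow_succ]
    have h1 : wt t ≤ (|t| ^ 4)⁻¹ := by
      unfold wt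
      refine inv_anti₀ (by positivity) ?_
      have : |t| ^ 4 = (t ^ 2) ^ 2 := by rw [← sq_abs t]; ring
      rw [this]
      gcongr
      linarith
    have h2 : (|t| ^ 4)⁻¹ ≤ (((2 : ℝ) ^ m) ^ 4)⁻¹ := by
      refine inv_anti₀ (by positivity) ?_
      gcongr
    have h3 : (((2 : ℝ) ^ m) ^ 4)⁻¹ = (1 / 16) ^ m := by
      rw [← pow_mul, mul_comm, pow_mul, ← inv_pow]
      norm_num
    linarith

/-- The integral of the weight against a measure with bounded growth at `x`. -/
lemma lintegral_wt_le (μ : Measure ℝ) (x : ℝ) {a b : ℝ} (ha : 0 ≤ a) (hb : 0 ≤ b)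
    (h : ∀ r > 0, μ (closedBall x r) ≤ ENNReal.ofReal (a * r + b * r ^ 2)) {lam : ℝ}
    (hl : 0 < lam) :
    ∫⁻ z, ENNReal.ofReal (wt (lam * (x - z))) ∂μ ≤
      ENNReal.ofReal (32 * (a / lam + b / lam ^ 2)) := by
  have h1 : ∀ z, ENNReal.ofReal (wt (lam * (x - z))) ≤
      ∑' k : ℕ, (closedBall x (2 ^ k / lam)).indicator
        (fun _ => ENNReal.ofReal (16 * (1 / 16) ^ k)) z := by
    intro z
    obtain ⟨k, hk1, hk2⟩ := wt_dyadic (lam * (x - z))
    refine le_trans ?_ (ENNReal.le_tsum k)
    rw [indicator_of_mem]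
    · exact ENNReal.ofReal_le_ofReal hk2
    · rw [mem_closedBall, Real.dist_eq, le_div_iff₀ hl, abs_sub_comm]
      rw [abs_mul, abs_of_pos hl] at hk1
      linarith
  refine (lintegral_mono h1).trans ?_
  rw [lintegral_tsum fun k => (measurable_const.indicator measurableSet_closedBall).aemeasurable]
  have h2 : ∀ k : ℕ, ∫⁻ z, (closedBall x (2 ^ k / lam)).indicator
      (fun _ => ENNReal.ofReal (16 * (1 / 16) ^ k)) z ∂μ ≤
      ENNReal.ofReal (16 * (a / lam + b / lam ^ 2) * (1 / 2) ^ k) := by
    intro k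
    rw [lintegral_indicator measurableSet_closedBall, setLIntegral_const]
    have hr : 0 < (2 : ℝ) ^ k / lam := by positivity
    refine (mul_le_mul' le_rfl (h _ hr)).trans ?_
    rw [← ENNReal.ofReal_mul (by positivity)]
    refine ENNReal.ofReal_le_ofReal ?_
    have e1 : (16 * (1 / 16) ^ k : ℝ) * (a * (2 ^ k / lam) + b * (2 ^ k / lam) ^ 2) =
        16 * (a / lam * ((1 / 16) ^ k * 2 ^ k) + b / lam ^ 2 * ((1 / 16) ^ k * (2 ^ k) ^ 2)) := by
      field_simp
    have e2 : ((1 / 16 : ℝ) ^ k * 2 ^ k) = (1 / 8) ^ k := by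
      rw [← mul_pow]
      norm_num
    have e3 : ((1 / 16 : ℝ) ^ k * (2 ^ k) ^ 2) = (1 / 4) ^ k := by
      rw [← pow_mul, mul_comm k 2, pow_mul, ← mul_pow]
      norm_num
    rw [e1, e2, e3]
    have h4 : (1 / 8 : ℝ) ^ k ≤ (1 / 2) ^ k := pow_le_pow_left₀ (by norm_num) (by norm_num) k
    have h5 : (1 / 4 : ℝ) ^ k ≤ (1 / 2) ^ k := pow_le_pow_left₀ (by norm_num) (by norm_num) k
    have h6 : 0 ≤ a / lam := by positivity
    have h7 : 0 ≤ b / lam ^ 2 := by positivity
    nlinarith [mul_le_mul_of_nonneg_left h4 h6, mul_le_mul_of_nonneg_left h5 h7]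
  refine (ENNReal.tsum_le_tsum h2).trans ?_
  rw [← ENNReal.ofReal_tsum_of_nonneg (fun k => by positivity)
    (summable_geometric_two.mul_left _), tsum_mul_left, tsum_geometric_two]
  exact ENNReal.ofReal_le_ofReal (by linarith)

section good

variable (ν : Measure ℝ)

/-- The density. -/
noncomputable def dens (x : ℝ) : ℝ := (ν.rnDeriv volume x).toReal

lemma dens_nonneg (x : ℝ) : 0 ≤ dens ν x := ENNReal.toReal_nonneg

lemma measurable_dens : Measurable (dens ν) := (Measure.measurable_rnDeriv _ _).ennreal_toReal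

lemma integrable_dens [IsFiniteMeasure ν] : Integrable (dens ν) := Measure.integrable_toReal_rnDeriv

/-- The point `x` is a Lebesgue point of the density, with quantitative bounds. -/
structure Good (x : ℝ) : Prop where
  bound : ∃ M : ℝ, 0 ≤ M ∧ ∀ r > 0, ν (closedBall x r) ≤ ENNReal.ofReal (M * r)
  leb : ∀ ε > 0, ∃ b : ℝ, 0 ≤ b ∧ ∀ r > 0,
    ∫⁻ z in closedBall x r, ENNReal.ofReal |dens ν z - dens ν x| ≤
      ENNReal.ofReal (ε * r + b * r ^ 2)

lemma ae_good [IsProbabilityMeasure ν] (hν : ν ≪ volume) :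
    ∀ᵐ x ∂(volume : Measure ℝ), Good ν x := by
  have hint := integrable_dens ν
  have hae := IsUnifLocDoublingMeasure.ae_tendsto_average_norm_sub (μ := (volume : Measure ℝ))
    (hint.locallyIntegrable) 1
  have htot : ∫ z, dens ν z = 1 := by
    have := Measure.integral_toReal_rnDeriv hν
    unfold dens
    rw [this]
    simp
  filter_upwards [hae] with x hx
  have hlim := hx (ι := ℝ) (l := 𝓝[>] 0) (fun _ => x) (fun r => r) tendsto_id (by
    filter_upwards [self_mem_nhdsWithin] with r hr
    rw [mem_closedBall, dist_self, one_mul]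
    exact (le_of_lt hr))
  have hintr : ∀ r, IntegrableOn (fun z => ‖dens ν z - dens ν x‖) (closedBall x r) := by
    intro r
    refine Integrable.norm ?_
    exact (hint.integrableOn).sub (integrableOn_const (by
      rw [Real.volume_closedBall]
      exact ENNReal.ofReal_ne_top) (by simp))
  have key : ∀ ε > 0, ∃ r₀ > 0, ∀ r > 0, r < r₀ →
      ∫ z in closedBall x r, ‖dens ν z - dens ν x‖ ≤ ε * r := by
    intro ε hε
    have h1 := (hlim.eventually (gt_mem_nhds (show (0 : ℝ) < ε / 2 by positivity)))
    rw [eventually_nhdsWithin_iff, Metric.eventually_nhds_iff] at h1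
    obtain ⟨r₀, hr₀, h1⟩ := h1
    refine ⟨r₀, hr₀, fun r hr hr' => ?_⟩
    have h2 := h1 (y := r) (by rw [Real.dist_eq, sub_zero, abs_of_pos hr]; exact hr') hr
    rw [setAverage_eq, smul_eq_mul, Measure.real, Real.volume_closedBall,
      ENNReal.toReal_ofReal (by positivity), inv_mul_lt_iff₀ (by positivity)] at h2
    linarith
  have htail : ∀ r > 0, ∫ z in closedBall x r, ‖dens ν z - dens ν x‖ ≤ 1 + 2 * r * dens ν x := by
    intro r hr
    have h1 : ∫ z in closedBall x r, ‖dens ν z - dens ν x‖ ≤
        ∫ z in closedBall x r, (dens ν z + dens ν x) := by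
      refine setIntegral_mono (hintr r) ?_ fun z => ?_
      · exact (hint.integrableOn).add (integrableOn_const (by
          rw [Real.volume_closedBall]
          exact ENNReal.ofReal_ne_top) (by simp))
      · rw [Real.norm_eq_abs, abs_le]
        have h1 := dens_nonneg ν z
        have h2 := dens_nonneg ν x
        constructor <;> linarith
    refine h1.trans ?_
    rw [integral_add hint.integrableOn (integrableOn_const (by
          rw [Real.volume_closedBall]
          exact ENNReal.ofReal_ne_top) (by simp)), setIntegral_const, Measure.real,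
      Real.volume_closedBall, ENNReal.toReal_ofReal (by positivity), smul_eq_mul]
    have h2 : ∫ z in closedBall x r, dens ν z ≤ ∫ z, dens ν z :=
      setIntegral_le_integral hint (Eventually.of_forall fun z => dens_nonneg ν z)
    rw [htot] at h2
    linarith
  have hleb : ∀ ε > 0, ∃ b : ℝ, 0 ≤ b ∧ ∀ r > 0,
      ∫ z in closedBall x r, ‖dens ν z - dens ν x‖ ≤ ε * r + b * r ^ 2 := by
    intro ε hε
    obtain ⟨r₀, hr₀, h1⟩ := key ε hε
    have hdx := dens_nonneg ν x
    refine ⟨1 / r₀ ^ 2 + 2 * dens ν x / r₀, by positivity, fun r hr => ?_⟩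
    by_cases hr' : r < r₀
    · refine (h1 r hr hr').trans ?_
      have : 0 ≤ (1 / r₀ ^ 2 + 2 * dens ν x / r₀) * r ^ 2 := by positivity
      linarith
    · push Not at hr'
      refine (htail r hr).trans ?_
      have h3 : 1 ≤ 1 / r₀ ^ 2 * r ^ 2 := by
        rw [one_div, inv_mul_eq_div, one_le_div (by positivity)]
        exact pow_le_pow_left₀ hr₀.le hr' 2
      have h4 : 2 * r * dens ν x ≤ 2 * dens ν x / r₀ * r ^ 2 := by
        have e : 2 * dens ν x / r₀ * r ^ 2 = 2 * r * dens ν x * (r / r₀) := by
          field_simp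
        rw [e]
        exact le_mul_of_one_le_right (by positivity) ((one_le_div hr₀).2 hr')
      have h5 : 0 ≤ ε * r := by positivity
      nlinarith
  have hconv : ∀ r, ∫⁻ z in closedBall x r, ENNReal.ofReal |dens ν z - dens ν x| =
      ENNReal.ofReal (∫ z in closedBall x r, ‖dens ν z - dens ν x‖) := by
    intro r
    rw [ofReal_integral_eq_lintegral_ofReal (hintr r)
      (Eventually.of_forall fun z => norm_nonneg _)]
    rfl
  constructor
  · obtain ⟨b, hb, h1⟩ := hleb 1 one_pos
    obtain ⟨r₀, hr₀, h2⟩ := key 1 one_pos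
    have hdx := dens_nonneg ν x
    refine ⟨1 + 2 * dens ν x + 1 / r₀, by positivity, fun r hr => ?_⟩
    by_cases hr' : r < r₀
    · have h3 : ν (closedBall x r) = ENNReal.ofReal (∫ z in closedBall x r, dens ν z) := by
        rw [ofReal_integral_eq_lintegral_ofReal hint.integrableOn
          (Eventually.of_forall fun z => dens_nonneg ν z)]
        rw [← Measure.setLIntegral_rnDeriv hν]
        refine setLIntegral_congr_fun_ae measurableSet_closedBall ?_
        filter_upwards [Measure.rnDeriv_lt_top ν volume] with z hz _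
        rw [dens, ENNReal.ofReal_toReal hz.ne]
      rw [h3]
      refine ENNReal.ofReal_le_ofReal ?_
      have h4 : ∫ z in closedBall x r, dens ν z ≤
          ∫ z in closedBall x r, (‖dens ν z - dens ν x‖ + dens ν x) := by
        refine setIntegral_mono hint.integrableOn ?_ fun z => ?_
        · exact (hintr r).add (integrableOn_const (by
            rw [Real.volume_closedBall]
            exact ENNReal.ofReal_ne_top) (by simp))
        · have := le_abs_self (dens ν z - dens ν x)
          rw [← Real.norm_eq_abs] at this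
          show dens ν z ≤ ‖dens ν z - dens ν x‖ + dens ν x
          linarith
      refine h4.trans ?_
      rw [integral_add (hintr r) (integrableOn_const (by
          rw [Real.volume_closedBall]
          exact ENNReal.ofReal_ne_top) (by simp)), setIntegral_const, Measure.real,
        Real.volume_closedBall, ENNReal.toReal_ofReal (by positivity), smul_eq_mul]
      have h5 := h2 r hr hr'
      have h6 : 0 ≤ 1 / r₀ * r := by positivity
      nlinarith
    · push Not at hr'
      refine prob_le_one.trans ?_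
      rw [← ENNReal.ofReal_one]
      refine ENNReal.ofReal_le_ofReal ?_
      have h3 : 1 ≤ 1 / r₀ * r := by
        rw [one_div, inv_mul_eq_div, one_le_div hr₀]
        exact hr'
      have h4 : 0 ≤ (1 + 2 * dens ν x) * r := by positivity
      nlinarith
  · intro ε hε
    obtain ⟨b, hb, h1⟩ := hleb ε hε
    exact ⟨b, hb, fun r hr => by rw [hconv]; exact ENNReal.ofReal_le_ofReal (h1 r hr)⟩

end good

end Pool.Agent.U145.BC
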