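import Pool.Agent.Results.MP_ddcbd8_an.SingularDensities

/-!
# The transfer operator of the Bernoulli convolution
-/

set_option autoImplicit false

open MeasureTheory Filter Topology Set

namespace Pool.Agent.U145.BC

open Pool.Agent.Results.MP_ddcbd8_an.SingularDensities (bernoulliConv self_similar)

/-- The transfer operator `g ↦ (β / 2) (g (β x) + g (β x - 1))`. -/
noncomputable def op {E : Type*} [AddCommGroup E] [Module ℝ E] (β : ℝ) (g : ℝ → E) : ℝ → E :=
  fun x => (β / 2) • (g (β * x) + g (β * x - 1))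

section basic

variable {E : Type*} [NormedAddCommGroup E] [NormedSpace ℝ E] {β : ℝ}

lemma op_apply (g : ℝ → E) (x : ℝ) : op β g x = (β / 2) • (g (β * x) + g (β * x - 1)) := rfl

lemma iter_succ (g : ℝ → E) (n : ℕ) : (op β)^[n + 1] g = op β ((op β)^[n] g) :=
  Function.iterate_succ_apply' _ _ _

lemma op_norm_le (hβ : 0 ≤ β) {g : ℝ → E} {G : ℝ → ℝ} (h : ∀ x, ‖g x‖ ≤ G x) (n : ℕ) (x : ℝ) :
    ‖(op β)^[n] g x‖ ≤ (op β)^[n] G x := by
  induction n generalizing x with
  | zero => exact h x
  | succ n ih =>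
    rw [iter_succ, iter_succ, op_apply, op_apply, norm_smul, Real.norm_eq_abs,
      abs_of_nonneg (by positivity), smul_eq_mul]
    refine mul_le_mul_of_nonneg_left ((norm_add_le _ _).trans (add_le_add (ih _) (ih _))) ?_
    positivity

lemma op_mono (hβ : 0 ≤ β) {G H : ℝ → ℝ} (h : ∀ x, G x ≤ H x) (n : ℕ) (x : ℝ) :
    (op β)^[n] G x ≤ (op β)^[n] H x := by
  induction n generalizing x with
  | zero => exact h x
  | succ n ih =>
    rw [iter_succ, iter_succ, op_apply, op_apply, smul_eq_mul, smul_eq_mul]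
    exact mul_le_mul_of_nonneg_left (add_le_add (ih _) (ih _)) (by positivity)

lemma op_add (g k : ℝ → E) (n : ℕ) (x : ℝ) :
    (op β)^[n] (fun y => g y + k y) x = (op β)^[n] g x + (op β)^[n] k x := by
  induction n generalizing x with
  | zero => rfl
  | succ n ih =>
    simp only [iter_succ, op_apply, ih]
    rw [← smul_add]
    congr 1
    abel

lemma op_smul (c : ℝ) (g : ℝ → E) (n : ℕ) (x : ℝ) :
    (op β)^[n] (fun y => c • g y) x = c • (op β)^[n] g x := by
  induction n generalizing x with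
  | zero => rfl
  | succ n ih =>
    simp only [iter_succ, op_apply, ih]
    rw [← smul_add, smul_comm]

lemma op_ofReal (G : ℝ → ℝ) (n : ℕ) (x : ℝ) :
    (op β)^[n] (fun y => (G y : ℂ)) x = (((op β)^[n] G x : ℝ) : ℂ) := by
  induction n generalizing x with
  | zero => rfl
  | succ n ih =>
    simp only [iter_succ, op_apply, ih, Complex.real_smul, smul_eq_mul, Complex.ofReal_mul,
      Complex.ofReal_add]

end basic

section avg

variable {β : ℝ}

/-- The average over the shifts of the words of length `j`. -/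
noncomputable def avg (β : ℝ) : ℕ → (ℝ → ℂ) → ℂ
  | 0, H => H 0
  | j + 1, H => 1 / 2 * (avg β j (fun s => H (β * s)) + avg β j (fun s => H (β * s + 1)))

/-- The largest shift. -/
noncomputable def top (β : ℝ) : ℕ → ℝ
  | 0 => 0
  | j + 1 => β * top β j + 1

lemma top_nonneg (hβ : 0 ≤ β) (j : ℕ) : 0 ≤ top β j := by
  induction j with
  | zero => exact le_rfl
  | succ j ih => unfold top; positivity

lemma avg_add (j : ℕ) (G H : ℝ → ℂ) :
    avg β j (fun s => G s + H s) = avg β j G + avg β j H := by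
  induction j generalizing G H with
  | zero => rfl
  | succ j ih =>
    simp only [avg, ih]
    ring

lemma avg_mul (j : ℕ) (c : ℂ) (H : ℝ → ℂ) : avg β j (fun s => c * H s) = c * avg β j H := by
  induction j generalizing H with
  | zero => rfl
  | succ j ih =>
    simp only [avg, ih]
    ring

lemma avg_norm_le (hβ : 0 ≤ β) (j : ℕ) {H : ℝ → ℂ} {c : ℝ}
    (h : ∀ s, 0 ≤ s → s ≤ top β j → ‖H s‖ ≤ c) : ‖avg β j H‖ ≤ c := by
  induction j generalizing H with
  | zero => exact h 0 le_rfl le_rfl
  | succ j ih =>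
    have h1 : ‖avg β j (fun s => H (β * s))‖ ≤ c := by
      refine ih fun s h0 h1 => h _ (by positivity) ?_
      have := mul_le_mul_of_nonneg_left h1 hβ
      unfold top
      linarith
    have h2 : ‖avg β j (fun s => H (β * s + 1))‖ ≤ c := by
      refine ih fun s h0 h1 => h _ (by positivity) ?_
      have := mul_le_mul_of_nonneg_left h1 hβ
      unfold top
      linarith
    simp only [avg]
    calc ‖(1 / 2 : ℂ) * (avg β j (fun s => H (β * s)) + avg β j (fun s => H (β * s + 1)))‖
        = 1 / 2 * ‖avg β j (fun s => H (β * s)) + avg β j (fun s => H (β * s + 1))‖ := by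
          rw [norm_mul]
          norm_num
      _ ≤ 1 / 2 * (c + c) := by
          refine mul_le_mul_of_nonneg_left ((norm_add_le _ _).trans (add_le_add h1 h2)) ?_
          norm_num
      _ = c := by ring

lemma op_avg (j : ℕ) (G : ℝ → ℂ) (y : ℝ) :
    (op β)^[j] G y = (β : ℂ) ^ j * avg β j (fun s => G (β ^ j * y - s)) := by
  induction j generalizing G y with
  | zero => simp [avg]
  | succ j ih =>
    rw [Function.iterate_succ_apply, ih]
    simp only [avg, op_apply, Complex.real_smul]
    rw [show (fun s => ((β / 2 : ℝ) : ℂ) * (G (β * (β ^ j * y - s)) +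
        G (β * (β ^ j * y - s) - 1))) = fun s => ((β / 2 : ℝ) : ℂ) *
        ((fun s => G (β ^ (j + 1) * y - β * s)) s + (fun s => G (β ^ (j + 1) * y - (β * s + 1))) s)
      from by
        funext s
        have e1 : β * (β ^ j * y - s) - 1 = β ^ (j + 1) * y - (β * s + 1) := by ring
        have e2 : β * (β ^ j * y - s) = β ^ (j + 1) * y - β * s := by ring
        rw [e1, e2]]
    rw [avg_mul, avg_add]
    push_cast
    ring

/-- The product `∏_{i < j} (1 + e^{-2 π i ζ β^i}) / 2`. -/
noncomputable def amp (β : ℝ) : ℕ → ℝ → ℂ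
  | 0, _ => 1
  | j + 1, ζ => (1 + Complex.exp (-(2 * Real.pi * ζ : ℝ) * Complex.I)) / 2 * amp β j (ζ * β)

lemma avg_exp (j : ℕ) (ζ : ℝ) :
    avg β j (fun s => Complex.exp (-(2 * Real.pi * ζ * s : ℝ) * Complex.I)) = amp β j ζ := by
  induction j generalizing ζ with
  | zero => simp [avg, amp]
  | succ j ih =>
    simp only [avg, amp]
    have e1 : (fun s : ℝ => Complex.exp (-(2 * Real.pi * ζ * (β * s) : ℝ) * Complex.I)) =
        fun s : ℝ => Complex.exp (-(2 * Real.pi * (ζ * β) * s : ℝ) * Complex.I) := by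
      funext s
      rw [show 2 * Real.pi * ζ * (β * s) = 2 * Real.pi * (ζ * β) * s by ring]
    have e2 : (fun s : ℝ => Complex.exp (-(2 * Real.pi * ζ * (β * s + 1) : ℝ) * Complex.I)) =
        fun s : ℝ => Complex.exp (-(2 * Real.pi * ζ : ℝ) * Complex.I) *
          Complex.exp (-(2 * Real.pi * (ζ * β) * s : ℝ) * Complex.I) := by
      funext s
      rw [← Complex.exp_add]
      congr 1
      push_cast
      ring
    rw [e1, e2, avg_mul, ih]
    ring

end avg

/-! ### The weight -/

/-- The weight `(1 + t ^ 2) ^ (-2)`. -/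
noncomputable def wt (t : ℝ) : ℝ := ((1 + t ^ 2) ^ 2)⁻¹

lemma wt_pos (t : ℝ) : 0 < wt t := by unfold wt; positivity

lemma wt_le_one (t : ℝ) : wt t ≤ 1 := by
  unfold wt
  exact inv_le_one_of_one_le₀ (by nlinarith [sq_nonneg t, sq_nonneg (t ^ 2)])

lemma continuous_wt : Continuous wt := by
  unfold wt
  exact Continuous.inv₀ (by fun_prop) fun t => by positivity

lemma wt_shift (t s : ℝ) : wt (t - s) ≤ 4 * (1 + s ^ 2) ^ 2 * wt t := by
  unfold wt
  rw [← div_eq_mul_inv, le_div_iff₀ (by positivity), inv_mul_eq_div, div_le_iff₀ (by positivity)]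
  have h : 1 + t ^ 2 ≤ 2 * ((1 + s ^ 2) * (1 + (t - s) ^ 2)) := by
    nlinarith [sq_nonneg (t - 2 * s), sq_nonneg (s * (t - s)), sq_nonneg s, sq_nonneg (t - s)]
  calc (1 + t ^ 2) ^ 2 ≤ (2 * ((1 + s ^ 2) * (1 + (t - s) ^ 2))) ^ 2 := by
        gcongr
    _ = 4 * (1 + s ^ 2) ^ 2 * (1 + (t - s) ^ 2) ^ 2 := by ring

lemma integrable_wt : Integrable wt := by
  refine (integrable_inv_one_add_sq).mono' continuous_wt.aestronglyMeasurable
    (Eventually.of_forall fun t => ?_)
  rw [Real.norm_eq_abs, abs_of_pos (wt_pos t)]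
  unfold wt
  refine inv_anti₀ (by positivity) ?_
  nlinarith [sq_nonneg t, sq_nonneg (t ^ 2)]

end Pool.Agent.U145.BC
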